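import Pool.Agent.W254.PA.Transfer

/-!
# The rational part of a space determines it up to few coordinates

`Hyp L` is the hyperplane property of a space `L` over a field `κ` inside a larger field `E`.
-/

set_option autoImplicit false

namespace Pool.Agent.TH910.LR

open Module Finset
open Pool.Agent.W254.PA (Hyp)

variable {κ E : Type*} [Field κ] [Field E] [Algebra κ E]

variable (E) in
/-- a vector with coordinates in the small field -/
def cv {n : ℕ} (c : Fin n → κ) : Fin n → E := fun i => algebraMap κ E (c i)

theorem exists_normal [Countable κ] [Uncountable E] {n : ℕ} (V : Submodule E (Fin n → E)) :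
    ∃ y : Fin n → E, (∀ v ∈ V, ∑ i, y i * v i = 0) ∧
      ∀ c : Fin n → κ, ∑ i, y i * algebraMap κ E (c i) = 0 → cv E c ∈ V := by
  classical
  let b := Module.finBasis E ((Fin n → E) ⧸ V)
  set m := finrank E ((Fin n → E) ⧸ V) with hm
  let u : Fin m → Fin n → E := fun j i => b.repr (V.mkQ (Pi.single i 1)) j
  have hu : ∀ (v : Fin n → E) (j : Fin m), b.repr (V.mkQ v) j = ∑ i, u j i * v i := by
    intro v j
    have h1 : v = ∑ i, v i • (Pi.single i 1 : Fin n → E) := by
      funext k
      rw [Finset.sum_apply, Finset.sum_eq_single k]
      · simp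
      · intro i _ hik
        simp [Pi.single_apply, Ne.symm hik]
      · simp
    conv_lhs => rw [h1]
    rw [map_sum, map_sum, Finsupp.finset_sum_apply]
    apply Finset.sum_congr rfl
    intro i _
    rw [map_smul, map_smul, Finsupp.smul_apply, smul_eq_mul, mul_comm]
  have hmem : ∀ v : Fin n → E, v ∈ V ↔ ∀ j, ∑ i, u j i * v i = 0 := by
    intro v
    constructor
    · intro hv j
      rw [← hu, (Submodule.Quotient.mk_eq_zero V).2 hv |> fun h => (show V.mkQ v = 0 from h)]
      simp
    · intro h
      have h1 : b.repr (V.mkQ v) = 0 := by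
        ext j
        rw [hu, h j]
        rfl
      have h2 : V.mkQ v = 0 := by
        rwa [LinearEquiv.map_eq_zero_iff] at h1
      exact (Submodule.Quotient.mk_eq_zero V).1 h2
  let P : (Fin n → κ) → Polynomial E := fun c =>
    ∑ j : Fin m, Polynomial.C (∑ i, u j i * algebraMap κ E (c i)) * Polynomial.X ^ (j : ℕ)
  have hP : ∀ c, cv E c ∉ V → P c ≠ 0 := by
    intro c hc h0
    apply hc
    rw [hmem]
    intro j
    have h1 : (P c).coeff (j : ℕ) = 0 := by rw [h0]; simp
    have h2 : (P c).coeff (j : ℕ) = ∑ i, u j i * algebraMap κ E (c i) := by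
      simp only [P, Polynomial.finset_sum_coeff, Polynomial.coeff_C_mul_X_pow]
      rw [Finset.sum_eq_single j]
      · simp
      · intro j' _ hj'
        rw [if_neg]
        intro h
        exact hj' (Fin.ext h.symm)
      · simp
    rw [h2] at h1
    exact h1
  let Bad : Set E := ⋃ c ∈ {c : Fin n → κ | cv E c ∉ V}, {T : E | (P c).IsRoot T}
  have hBad : Bad.Countable := by
    apply Set.Countable.biUnion (Set.to_countable _)
    intro c hc
    exact (Polynomial.finite_setOf_isRoot (hP c hc)).countable
  obtain ⟨T, hT⟩ : ∃ T, T ∉ Bad := by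
    by_contra h
    push Not at h
    exact (Set.not_countable_univ (α := E)) (hBad.mono fun x _ => h x)
  refine ⟨fun i => ∑ j : Fin m, T ^ (j : ℕ) * u j i, ?_, ?_⟩
  · intro v hv
    have h1 := (hmem v).1 hv
    simp only [Finset.sum_mul]
    rw [Finset.sum_comm]
    apply Finset.sum_eq_zero
    intro j _
    rw [← mul_zero (T ^ (j : ℕ)), ← h1 j, Finset.mul_sum]
    apply Finset.sum_congr rfl
    intro i _
    ring
  · intro c hc
    by_contra hcV
    apply hT
    refine Set.mem_biUnion (show c ∈ {c : Fin n → κ | cv E c ∉ V} from hcV) ?_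
    change (P c).eval T = 0
    rw [← hc]
    simp only [P, Polynomial.eval_finset_sum, Polynomial.eval_mul, Polynomial.eval_C,
      Polynomial.eval_pow, Polynomial.eval_X, Finset.sum_mul]
    rw [Finset.sum_comm]
    apply Finset.sum_congr rfl
    intro i _
    apply Finset.sum_congr rfl
    intro j _
    ring

theorem exists_basis_rep {n : ℕ} (y : Fin n → E) : ∃ (d : ℕ) (x : Fin d → E)
    (P : Fin d → Fin n → κ), d ≤ n ∧ LinearIndependent κ x ∧
      ∀ i, y i = ∑ j, algebraMap κ E (P j i) * x j := by
  classical
  let S : Submodule κ E := Submodule.span κ (Set.range y)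
  haveI : FiniteDimensional κ S := FiniteDimensional.span_of_finite κ (Set.finite_range y)
  let b := Module.finBasis κ S
  refine ⟨finrank κ S, fun j => (b j : E), fun j i => b.repr ⟨y i, Submodule.subset_span ⟨i, rfl⟩⟩ j,
    ?_, ?_, ?_⟩
  · have := finrank_range_le_card (R := κ) y
    simpa [Set.finrank] using this
  · exact b.linearIndependent.map' S.subtype S.ker_subtype
  · intro i
    have h1 := congrArg (fun z : S => (z : E)) (b.sum_repr ⟨y i, Submodule.subset_span ⟨i, rfl⟩⟩)
    simp only [Submodule.coe_sum, Submodule.coe_smul] at h1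
    rw [← h1]
    apply Finset.sum_congr rfl
    intro j _
    rw [Algebra.smul_def]

/-- **Few points determine everything modulo the `κ`-rational vectors of `V`.** -/
theorem few_points [Countable κ] [Uncountable E] {L : Submodule κ E} (hL : Hyp L)
    {B : Type*} (w : B → E) (hw : LinearIndependent κ w) (hwL : ∀ b, w b ∈ L) {n : ℕ}
    (V : Submodule E (Fin n → E)) :
    ∃ P : Finset B, P.card ≤ n * n ∧ ∀ r : Fin n → (B →₀ κ),
      (fun i => Finsupp.linearCombination κ w (r i)) ∈ V →
      (∀ b ∈ P, cv E (fun i => r i b) ∈ V) → ∀ b, cv E (fun i => r i b) ∈ V := by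
  classical
  obtain ⟨y, hy1, hy2⟩ := exists_normal (κ := κ) V
  obtain ⟨d, x, P, hdn, hx, hyx⟩ := exists_basis_rep (κ := κ) y
  -- membership of rational vectors
  have hcv : ∀ c : Fin n → κ, cv E c ∈ V ↔ ∀ j, ∑ i, P j i * c i = 0 := by
    intro c
    have e1 : ∑ i, y i * algebraMap κ E (c i) = ∑ j, (∑ i, P j i * c i) • x j := by
      simp only [hyx, Finset.sum_mul]
      rw [Finset.sum_comm]
      apply Finset.sum_congr rfl
      intro j _
      rw [Algebra.smul_def, map_sum, Finset.sum_mul]
      apply Finset.sum_congr rfl
      intro i _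
      rw [map_mul]
      ring
    constructor
    · intro hc
      have h1 := hy1 _ hc
      simp only [cv] at h1
      rw [e1] at h1
      exact Fintype.linearIndependent_iff.1 hx _ h1
    · intro h
      apply hy2
      rw [e1]
      apply Finset.sum_eq_zero
      intro j _
      rw [h j, zero_smul]
  let φ := Finsupp.linearCombination κ w
  have hφ : Function.Injective φ := hw
  let a : (Fin n → (B →₀ κ)) → Fin d → (B →₀ κ) := fun r j => ∑ i, P j i • r i
  have ha : ∀ r j b, a r j b = ∑ i, P j i * r i b := by
    intro r j b
    simp only [a, Finsupp.finset_sum_apply, Finsupp.smul_apply, smul_eq_mul]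
  -- a triangular family is bounded
  have key : ∀ (l : ℕ) (r : ℕ → Fin n → (B →₀ κ)) (b : ℕ → B),
      (∀ j < l, (fun i => φ (r j i)) ∈ V) → (∀ i j, i < j → j < l → cv E (fun k => r j k (b i)) ∈ V) →
      (∀ j < l, cv E (fun k => r j k (b j)) ∉ V) → l ≤ d * (d - 1) := by
    intro l r b h1 h2 h3
    refine hL d l x (fun j t => φ (a (r t) j)) hx ?_ ?_ ?_
    · intro j t
      simp only [φ, Finsupp.linearCombination_apply]
      apply Submodule.sum_mem
      intro b _
      exact L.smul_mem _ (hwL b)
    · intro t
      have h4 := hy1 _ (h1 t t.2)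
      rw [← h4]
      simp only [hyx, Finset.sum_mul]
      rw [Finset.sum_comm]
      apply Finset.sum_congr rfl
      intro j _
      simp only [a, map_sum, map_smul, Finset.mul_sum]
      apply Finset.sum_congr rfl
      intro i _
      rw [Algebra.smul_def]
      ring
    · rw [Fintype.linearIndependent_iff]
      intro c hc
      have hc' : ∀ j b', ∑ t, c t * a (r t) j b' = 0 := by
        intro j b'
        have h5 : φ (∑ t, c t • a (r t) j) = φ 0 := by
          rw [map_sum, map_zero]
          have h6 := congrFun hc j
          rw [Finset.sum_apply] at h6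
          simp only [Pi.smul_apply, Pi.zero_apply] at h6
          simp only [map_smul]
          exact h6
        have h7 := hφ h5
        have h8 := congrArg (fun f : B →₀ κ => f b') h7
        simp only [Finsupp.finset_sum_apply, Finsupp.smul_apply, smul_eq_mul,
          Finsupp.zero_apply] at h8
        exact h8
      have hmain : ∀ s : ℕ, ∀ t : Fin l, (t : ℕ) = s → c t = 0 := by
        intro s
        induction s using Nat.strong_induction_on with
        | _ s ih =>
          intro t ht
          by_contra hct
          apply h3 t t.2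
          rw [hcv]
          intro j
          have h9 := hc' j (b t)
          rw [Finset.sum_eq_single t] at h9
          · rw [ha] at h9
            exact (mul_eq_zero.1 h9).resolve_left hct
          · intro t' _ htt
            rcases lt_or_gt_of_ne htt with hlt | hgt
            · rw [ih t' (by rw [← ht]; exact hlt) t' rfl, zero_mul]
            · have h10 := (hcv _).1 (h2 t t' hgt t'.2) j
              rw [ha, h10, mul_zero]
          · intro h; exact absurd (Finset.mem_univ t) h
      intro t
      exact hmain t t rfl
  by_contra hcon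
  push Not at hcon
  obtain ⟨-, -, -, b0, -⟩ := hcon ∅ (by simp)
  have build : ∀ l : ℕ, l ≤ n * n + 1 → ∃ (r : ℕ → Fin n → (B →₀ κ)) (b : ℕ → B),
      (∀ j < l, (fun i => φ (r j i)) ∈ V) ∧ (∀ i j, i < j → j < l → cv E (fun k => r j k (b i)) ∈ V) ∧
      (∀ j < l, cv E (fun k => r j k (b j)) ∉ V) := by
    intro l
    induction l with
    | zero =>
      intro _
      exact ⟨fun _ _ => 0, fun _ => b0, by omega, by omega, by omega⟩
    | succ l ih =>
      intro hl
      obtain ⟨r, b, h1, h2, h3⟩ := ih (by omega)
      obtain ⟨r', hr1, hr2, b', hb'⟩ := hcon ((Finset.range l).image b)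
        (le_trans Finset.card_image_le (by rw [Finset.card_range]; omega))
      refine ⟨fun j => if j < l then r j else r', fun j => if j < l then b j else b', ?_, ?_, ?_⟩
      · intro j hj
        by_cases hjl : j < l
        · simp only [hjl, if_true]; exact h1 j hjl
        · simp only [hjl, if_false]; exact hr1
      · intro i j hij hj
        by_cases hjl : j < l
        · have hil : i < l := by omega
          simp only [hjl, hil, if_true]
          exact h2 i j hij hjl
        · have hil : i < l := by omega
          simp only [hjl, hil, if_true, if_false]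
          exact hr2 _ (Finset.mem_image_of_mem _ (Finset.mem_range.2 hil))
      · intro j hj
        by_cases hjl : j < l
        · simp only [hjl, if_true]; exact h3 j hjl
        · simp only [hjl, if_false]; exact hb'
  obtain ⟨r, b, h1, h2, h3⟩ := build (n * n + 1) le_rfl
  have h4 := key _ r b h1 h2 h3
  have h5 : d * (d - 1) ≤ n * n := Nat.mul_le_mul hdn (by omega)
  omega

end Pool.Agent.TH910.LR
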