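import Pool.Agent.TH910.LR.Ker

/-!
# Most matrices of low rank have a rational kernel
-/

set_option autoImplicit false

namespace Pool.Agent.TH910.LR

open Module Finset Matrix
open Pool.Agent.W254.PA (Hyp)

variable {κ E : Type*} [Field κ] [Field E] [Algebra κ E]

/-- the matrix with given coefficient vectors -/
noncomputable def EV {B : Type*} (w : B → E) {m n : ℕ} (M : Fin m → Fin n → (B →₀ κ)) :
    Matrix (Fin m) (Fin n) E := Matrix.of fun j => vec w (M j)

theorem EV_swap {B : Type*} (w : B → E) {m n : ℕ} (M : Fin m → Fin n → (B →₀ κ)) :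
    EV w (Function.swap M) = (EV w M)ᵀ := rfl

theorem EV_drop {B : Type*} (w : B → E) {m n : ℕ} (j : Fin (n + 1))
    (M : Fin m → Fin (n + 1) → (B →₀ κ)) :
    EV w (dropCol j M) = Matrix.of (dropCol j (EV w M)) := rfl

theorem rank_EV {B : Type*} (w : B → E) {m n : ℕ} (M : Fin m → Fin n → (B →₀ κ)) :
    (EV w M).rank = finrank E (RS w M) := by
  rw [Matrix.rank_eq_finrank_span_row]
  rfl

theorem finrank_swap {B : Type*} (w : B → E) {m n : ℕ} (M : Fin m → Fin n → (B →₀ κ)) :
    finrank E (RS w (Function.swap M)) = finrank E (RS w M) := by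
  rw [← rank_EV, ← rank_EV, EV_swap, Matrix.rank_transpose]

/-- a matrix whose kernel is not rational has a nonempty set of free rows -/
theorem I_ne {B : Type*} (w : B → E) {k m n : ℕ} (M : Fin m → Fin n → (B →₀ κ))
    (hM : ¬ KR κ (EV w M)) (c : Fin k → Fin n → κ) (I : Finset (Fin m))
    (h : VV w c I M = RS w M) : 1 ≤ I.card := by
  by_contra hcon
  have hI : I = ∅ := Finset.card_eq_zero.1 (by omega)
  apply hM
  apply KR_of_span (EV w M) c
  have h1 : RS w M = VV w c I M := h.symm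
  change RS w M = _
  rw [h1, VV, hI]
  simp

section counting

variable [Countable κ] [Uncountable E] [DecidableEq κ] {L : Submodule κ E} (hL : Hyp L)
  {B : Type*} [DecidableEq B] (w : B → E) (hw : LinearIndependent κ w) (hwL : ∀ b, w b ∈ L)
  (F : Finset κ) (A : Finset (B →₀ κ)) (hA : A.Nonempty) (hAF : ∀ α ∈ A, ∀ b, α b ∈ F)

include hL hw hwL hA hAF

theorem tall_count {k m n : ℕ} (hnm : n < m) (s : Finset (Fin m → Fin n → (B →₀ κ)))
    (hs : ∀ M ∈ s, (∀ j i, M j i ∈ A) ∧ finrank E (RS w M) ≤ k ∧ ¬ KR κ (EV w M)) :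
    s.card * A.card ^ (m - n + (k - 1)) ≤
      (F.card + 2) ^ (k * (2 * n + 1) + m + n * (n * n) * m) * A.card ^ (k * m) := by
  classical
  rcases s.eq_empty_or_nonempty with he | ⟨M₁, hM₁⟩
  · rw [he]; simp
  have hpar : ∀ M ∈ s, ∃ (c : Fin k → Fin n → κ) (I : Finset (Fin m)),
      (∀ i, c i ∈ insert 0 (TT F n)) ∧ finrank κ (WT F (VV w c I M)) + I.card ≤ k ∧
      (∀ j, vec w (M j) ∈ VV w c I M) ∧ 1 ≤ I.card := by
    intro M hM
    obtain ⟨c, I, h1, h2, h3, h4⟩ := exists_param w F M (hs M hM).2.1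
    exact ⟨c, I, h1, h2, h3, I_ne w M (hs M hM).2.2 c I h4⟩
  have hexp : ∀ t : ℕ, 1 ≤ t → t ≤ k → t ≤ m →
      (k - t) * (m - t) + n * t + (m - n + (k - 1)) ≤ k * m := by
    intro t ht1 htk htm
    have hk1 : 1 ≤ k := ht1.trans htk
    zify [htk, htm, hnm.le, hk1]
    have a1 : (0 : ℤ) ≤ (t : ℤ) - 1 := by
      have b1 : (1 : ℤ) ≤ t := by exact_mod_cast ht1
      linarith
    have a2 : (0 : ℤ) ≤ (m : ℤ) - n - 1 + (k - t) := by
      have b1 : (n : ℤ) + 1 ≤ m := by exact_mod_cast hnm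
      have b2 : (t : ℤ) ≤ k := by exact_mod_cast htk
      linarith
    nlinarith [mul_nonneg a1 a2]
  obtain ⟨e, he⟩ : ∃ e, e + (m - n + (k - 1)) = k * m := by
    obtain ⟨c, I, -, h2, -, h4⟩ := hpar M₁ hM₁
    have := hexp I.card h4 (by omega) (by simpa using Finset.card_le_univ I)
    exact ⟨k * m - (m - n + (k - 1)), by omega⟩
  have h1 := main_count (k := k) hL w hw hwL F A hA hAF e s (by
    intro M hM
    obtain ⟨c, I, h1, h2, h3, h4⟩ := hpar M hM
    refine ⟨(hs M hM).1, c, I, h1, h2, h3, ?_⟩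
    have := hexp I.card h4 (by omega) (by simpa using Finset.card_le_univ I)
    omega)
  calc s.card * A.card ^ (m - n + (k - 1)) ≤
        (F.card + 2) ^ (k * (2 * n + 1) + m + n * (n * n) * m) *
        A.card ^ e * A.card ^ (m - n + (k - 1)) := Nat.mul_le_mul_right _ h1
    _ = (F.card + 2) ^ (k * (2 * n + 1) + m + n * (n * n) * m) *
        A.card ^ (k * m) := by rw [mul_assoc, ← pow_add, he]

/-- the case of a partially rational column space -/
theorem mid_count {k n : ℕ} (s : Finset (Fin n → Fin n → (B →₀ κ)))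
    (hs : ∀ M ∈ s, (∀ j i, M j i ∈ A) ∧ finrank E (RS w M) ≤ k ∧ ¬ KR κ (EV w M) ∧
      1 ≤ finrank κ (WT F (RS w M))) :
    s.card * A.card ^ (1 + (k - 2)) ≤ (F.card + 2) ^ (k * (2 * n + 1) + n + n * (n * n) * n) *
      A.card ^ (k * n) := by
  classical
  rcases s.eq_empty_or_nonempty with he | ⟨M₁, hM₁⟩
  · rw [he]; simp
  have hpar : ∀ M ∈ s, ∃ (c : Fin k → Fin n → κ) (I : Finset (Fin n)),
      (∀ i, c i ∈ insert 0 (TT F n)) ∧ finrank κ (WT F (VV w c I M)) + I.card ≤ k ∧
      (∀ j, vec w (M j) ∈ VV w c I M) ∧ 1 ≤ I.card ∧ I.card + 1 ≤ k := by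
    intro M hM
    obtain ⟨c, I, h1, h2, h3, h4⟩ := exists_param w F M (hs M hM).2.1
    refine ⟨c, I, h1, h2, h3, I_ne w M (hs M hM).2.2.1 c I h4, ?_⟩
    have h5 := (hs M hM).2.2.2
    rw [← h4] at h5
    omega
  have hexp : ∀ t : ℕ, 1 ≤ t → t + 1 ≤ k → t ≤ n →
      (k - t) * (n - t) + n * t + (1 + (k - 2)) ≤ k * n := by
    intro t ht1 htk htn
    have e1 : 1 + (k - 2) = k - 1 := by omega
    rw [e1]
    have hk1 : 1 ≤ k := by omega
    have htk' : t ≤ k := by omega
    zify [htk', htn, hk1]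
    have a1 : (0 : ℤ) ≤ (t : ℤ) - 1 := by
      have b1 : (1 : ℤ) ≤ t := by exact_mod_cast ht1
      linarith
    have a2 : (0 : ℤ) ≤ (k : ℤ) - t - 1 := by
      have b2 : (t : ℤ) + 1 ≤ k := by exact_mod_cast htk
      linarith
    nlinarith [mul_nonneg a1 a2]
  obtain ⟨e, he⟩ : ∃ e, e + (1 + (k - 2)) = k * n := by
    obtain ⟨c, I, -, h2, -, h4, h5⟩ := hpar M₁ hM₁
    have := hexp I.card h4 h5 (by simpa using Finset.card_le_univ I)
    exact ⟨k * n - (1 + (k - 2)), by omega⟩
  have h1 := main_count (k := k) hL w hw hwL F A hA hAF e s (by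
    intro M hM
    obtain ⟨c, I, h1, h2, h3, h4, h5⟩ := hpar M hM
    refine ⟨(hs M hM).1, c, I, h1, h2, h3, ?_⟩
    have := hexp I.card h4 h5 (by simpa using Finset.card_le_univ I)
    omega)
  calc s.card * A.card ^ (1 + (k - 2)) ≤ (F.card + 2) ^ (k * (2 * n + 1) + n + n * (n * n) * n) *
        A.card ^ e * A.card ^ (1 + (k - 2)) := Nat.mul_le_mul_right _ h1
    _ = (F.card + 2) ^ (k * (2 * n + 1) + n + n * (n * n) * n) *
        A.card ^ (k * n) := by rw [mul_assoc, ← pow_add, he]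

end counting

theorem RS_drop_le {B : Type*} (w : B → E) {m n : ℕ} (j : Fin (n + 1))
    (M : Fin m → Fin (n + 1) → (B →₀ κ)) :
    RS w (Function.swap (dropCol j M)) ≤ RS w (Function.swap M) := by
  rw [RS, RS]
  apply Submodule.span_mono
  rintro _ ⟨l, rfl⟩
  exact ⟨j.succAbove l, rfl⟩

section counting2

variable [Countable κ] [Uncountable E] [DecidableEq κ] {L : Submodule κ E} (hL : Hyp L)
  {B : Type*} [DecidableEq B] (w : B → E) (hw : LinearIndependent κ w) (hwL : ∀ b, w b ∈ L)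
  (F : Finset κ) (A : Finset (B →₀ κ)) (hA : A.Nonempty) (hAF : ∀ α ∈ A, ∀ b, α b ∈ F)

include hL hw hwL hA hAF

/-- first case: dropping the column lowers the rank -/
theorem case_one {k n : ℕ} (j : Fin (n + 1)) (s : Finset (Fin (n + 1) → Fin (n + 1) → (B →₀ κ)))
    (hs : ∀ M ∈ s, (∀ j i, M j i ∈ A) ∧ finrank E (RS w (dropCol j M)) ≤ k ∧
      ¬ KR κ (EV w (dropCol j M))) :
    s.card * A.card ^ (1 + (k - 1)) ≤
      (F.card + 2) ^ (k * (2 * n + 1) + (n + 1) + n * (n * n) * (n + 1)) *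
      A.card ^ ((k + 1) * (n + 1)) := by
  classical
  have h1 := tall_count (k := k) hL w hw hwL F A hA hAF (Nat.lt_succ_self n)
    (s.image (dropCol j)) (by
      intro ρ hρ
      obtain ⟨M, hM, rfl⟩ := Finset.mem_image.1 hρ
      exact ⟨fun i l => (hs M hM).1 _ _, (hs M hM).2⟩)
  have h2 : s.card ≤ (s.image (dropCol j) ×ˢ (Fintype.piFinset fun _ : Fin (n + 1) => A)).card := by
    refine Finset.card_le_card_of_injOn (fun M => (dropCol j M, fun i => M i j)) ?_ ?_
    · intro M hM
      rw [Finset.mem_coe, Finset.mem_product, Fintype.mem_piFinset]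
      exact ⟨Finset.mem_image_of_mem _ hM, fun i => (hs M hM).1 i j⟩
    · intro M hM M' hM' hMM
      simp only [Prod.mk.injEq] at hMM
      funext i l
      refine Fin.succAboveCases j ?_ ?_ l
      · exact congrFun hMM.2 i
      · intro l'
        exact congrFun (congrFun hMM.1 i) l'
  rw [Finset.card_product, Fintype.card_piFinset, Finset.prod_const, Finset.card_univ,
    Fintype.card_fin] at h2
  have e0 : n + 1 - n + (k - 1) = 1 + (k - 1) := by omega
  rw [e0] at h1
  calc s.card * A.card ^ (1 + (k - 1)) ≤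
        ((s.image (dropCol j)).card * A.card ^ (n + 1)) * A.card ^ (1 + (k - 1)) :=
        Nat.mul_le_mul_right _ h2
    _ = ((s.image (dropCol j)).card * A.card ^ (1 + (k - 1))) * A.card ^ (n + 1) := by ring
    _ ≤ ((F.card + 2) ^ (k * (2 * n + 1) + (n + 1) + n * (n * n) * (n + 1)) *
      A.card ^ (k * (n + 1))) * A.card ^ (n + 1) := Nat.mul_le_mul_right _ h1
    _ = _ := by rw [mul_assoc, ← pow_add]; congr 2; ring

/-- second case: the rank stays the same and the column space has no rational vectors -/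
theorem case_two {k n : ℕ} (j : Fin (n + 1)) (s : Finset (Fin (n + 1) → Fin (n + 1) → (B →₀ κ)))
    (hs : ∀ M ∈ s, (∀ j i, M j i ∈ A) ∧ finrank E (RS w M) ≤ k ∧
      finrank E (RS w (dropCol j M)) = k ∧ ¬ KR κ (EV w (dropCol j M)) ∧
      finrank κ (WT F (RS w (Function.swap M))) = 0) :
    s.card * A.card ^ (1 + (k - 1)) ≤
      (F.card + 2) ^ (k * (2 * n + 1) + (n + 1) + n * (n * n) * (n + 1)) *
      (F.card + 1) ^ ((n + 1) * ((n + 1) * (n + 1))) * A.card ^ (k * (n + 1)) := by
  classical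
  have h1 := tall_count (k := k) hL w hw hwL F A hA hAF (Nat.lt_succ_self n)
    (s.image (dropCol j)) (by
      intro ρ hρ
      obtain ⟨M, hM, rfl⟩ := Finset.mem_image.1 hρ
      exact ⟨fun i l => (hs M hM).1 _ _, (hs M hM).2.2.1.le, (hs M hM).2.2.2.1⟩)
  have hcs : ∀ M ∈ s, RS w (Function.swap (dropCol j M)) = RS w (Function.swap M) := by
    intro M hM
    apply Submodule.eq_of_le_of_finrank_le (RS_drop_le w j M)
    have e1 := finrank_swap w M
    have e2 := finrank_swap w (dropCol j M)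
    have e3 := (hs M hM).2.2.1
    have e4 := (hs M hM).2.1
    omega
  have h2 := Finset.card_le_mul_card_image_of_maps_to (s := s) (t := s.image (dropCol j))
    (f := dropCol j) (fun M hM => Finset.mem_image_of_mem _ hM)
    ((F.card + 1) ^ ((n + 1) * ((n + 1) * (n + 1)))) (by
      intro ρ hρ
      obtain ⟨M₀, hM₀, hM₀ρ⟩ := Finset.mem_image.1 hρ
      have h3 := card_points hL w hw hwL F A hA hAF (RS w (Function.swap ρ))
        ((s.filter fun M => dropCol j M = ρ).image fun M i => M i j) (by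
          intro r hr
          obtain ⟨M, hM, rfl⟩ := Finset.mem_image.1 hr
          rw [Finset.mem_filter] at hM
          refine ⟨fun i => (hs M hM.1).1 i j, ?_⟩
          rw [← hM.2, hcs M hM.1]
          exact Submodule.subset_span ⟨j, rfl⟩)
      have h4 : finrank κ (WT F (RS w (Function.swap ρ))) = 0 := by
        rw [← hM₀ρ, hcs M₀ hM₀]
        exact (hs M₀ hM₀).2.2.2.2
      rw [h4, pow_zero, one_mul] at h3
      refine le_trans (le_of_eq ?_) h3
      rw [Finset.card_image_of_injOn]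
      intro M hM M' hM' hMM
      rw [Finset.mem_coe, Finset.mem_filter] at hM hM'
      funext i l
      refine Fin.succAboveCases j ?_ ?_ l
      · exact congrFun hMM i
      · intro l'
        exact congrFun (congrFun (hM.2.trans hM'.2.symm) i) l')
  have e0 : n + 1 - n + (k - 1) = 1 + (k - 1) := by omega
  rw [e0] at h1
  calc s.card * A.card ^ (1 + (k - 1)) ≤ ((F.card + 1) ^ ((n + 1) * ((n + 1) * (n + 1))) *
        (s.image (dropCol j)).card) * A.card ^ (1 + (k - 1)) := Nat.mul_le_mul_right _ h2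
    _ = (F.card + 1) ^ ((n + 1) * ((n + 1) * (n + 1))) *
        ((s.image (dropCol j)).card * A.card ^ (1 + (k - 1))) := by
        ring
    _ ≤ (F.card + 1) ^ ((n + 1) * ((n + 1) * (n + 1))) *
      ((F.card + 2) ^ (k * (2 * n + 1) + (n + 1) + n * (n * n) * (n + 1)) *
      A.card ^ (k * (n + 1))) := Nat.mul_le_mul_left _ h1
    _ = _ := by ring

/-- **Square matrices of rank at most `n - 2`.** -/
theorem square_count {k n : ℕ} (hk : k + 1 ≤ n)
    (s : Finset (Fin (n + 1) → Fin (n + 1) → (B →₀ κ)))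
    (hs : ∀ M ∈ s, (∀ j i, M j i ∈ A) ∧ finrank E (RS w M) ≤ k ∧
      ¬ KR κ (EV w M) ∧ ¬ KR κ (EV w (Function.swap M))) :
    s.card * A.card ^ (1 + (k - 2)) ≤
      (F.card + 2) ^ (3 * (n + 1) ^ 4 + 4 * (n + 1) ^ 2 + 4 * (n + 1)) *
      A.card ^ (k * (n + 1)) := by
  classical
  obtain ⟨N, hN⟩ : ∃ N, N = n + 1 := ⟨_, rfl⟩
  obtain ⟨Q, hQ⟩ : ∃ Q, Q = (F.card + 2) ^ (3 * N ^ 4 + 4 * N ^ 2 + N) := ⟨_, rfl⟩
  obtain ⟨R, hR⟩ : ∃ R, R = A.card ^ (k * N) := ⟨_, rfl⟩
  have hbase : 1 ≤ F.card + 2 := by omega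
  -- the three families
  let S1 : Fin (n + 1) → Finset (Fin (n + 1) → Fin (n + 1) → (B →₀ κ)) := fun j =>
    s.filter fun M => finrank E (RS w (dropCol j M)) + 1 ≤ k ∧ ¬ KR κ (EV w (dropCol j M))
  let S2 : Fin (n + 1) → Finset (Fin (n + 1) → Fin (n + 1) → (B →₀ κ)) := fun j =>
    s.filter fun M => finrank E (RS w (dropCol j M)) = k ∧ ¬ KR κ (EV w (dropCol j M)) ∧
      finrank κ (WT F (RS w (Function.swap M))) = 0
  let S3 : Finset (Fin (n + 1) → Fin (n + 1) → (B →₀ κ)) :=
    s.filter fun M => 1 ≤ finrank κ (WT F (RS w (Function.swap M)))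
  have hcover : s ⊆ (Finset.univ.biUnion fun j => S1 j ∪ S2 j) ∪ S3 := by
    intro M hM
    have hM' := hs M hM
    by_cases h3 : 1 ≤ finrank κ (WT F (RS w (Function.swap M)))
    · exact Finset.mem_union_right _ (Finset.mem_filter.2 ⟨hM, h3⟩)
    · apply Finset.mem_union_left
      have hdrop : ∃ j, ¬ KR κ (EV w (dropCol j M)) := by
        by_contra hcon
        push Not at hcon
        apply hM'.2.2.1
        apply KR_of_drop (EV w M)
        · rw [rank_EV]; omega
        · intro j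
          rw [← EV_drop]
          exact hcon j
      obtain ⟨j, hj⟩ := hdrop
      rw [Finset.mem_biUnion]
      refine ⟨j, Finset.mem_univ _, ?_⟩
      have hle : finrank E (RS w (dropCol j M)) ≤ k := by
        have h5 := Submodule.finrank_mono (RS_drop_le w j M)
        have e1 := finrank_swap w M
        have e2 := finrank_swap w (dropCol j M)
        have e4 := hM'.2.1
        omega
      rcases Nat.lt_or_ge (finrank E (RS w (dropCol j M))) k with hlt | hge
      · apply Finset.mem_union_left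
        exact Finset.mem_filter.2 ⟨hM, hlt, hj⟩
      · apply Finset.mem_union_right
        exact Finset.mem_filter.2 ⟨hM, le_antisymm hle hge, hj, by omega⟩
  have hkN : k ≤ N := by omega
  have hpow : ∀ a : ℕ, a ≤ 3 * N ^ 4 + 4 * N ^ 2 + N → (F.card + 2) ^ a ≤ Q := fun a ha => by
    rw [hQ]
    exact Nat.pow_le_pow_right hbase ha
  have hnN : n ≤ N := by omega
  have e4 : n * (n * n) * N ≤ N ^ 4 := by
    calc n * (n * n) * N ≤ N * (N * N) * N := by gcongr
      _ = N ^ 4 := by ring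
  have e2 : k * (2 * n + 1) ≤ 3 * N ^ 2 := by
    calc k * (2 * n + 1) ≤ N * (3 * N) := Nat.mul_le_mul hkN (by omega)
      _ = 3 * N ^ 2 := by ring
  have e3 : N * (N * N) ≤ N ^ 4 := by
    calc N * (N * N) = N ^ 3 := by ring
      _ ≤ N ^ 4 := Nat.pow_le_pow_right (by omega) (by omega)
  obtain ⟨a, ha⟩ : ∃ a, a = A.card ^ (1 + (k - 2)) := ⟨_, rfl⟩
  have hb1 : ∀ j, (S1 j).card * a ≤ Q * R := by
    intro j
    rcases (S1 j).eq_empty_or_nonempty with he | ⟨M₁, hM₁⟩
    · rw [he]; simp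
    · have hk1 : 1 ≤ k := by
        have := (Finset.mem_filter.1 hM₁).2.1
        omega
      obtain ⟨k', rfl⟩ := Nat.exists_eq_add_of_le' hk1
      have h6 := case_one (k := k') hL w hw hwL F A hA hAF j (S1 j) (by
        intro M hM
        obtain ⟨h7, h8, h9⟩ := Finset.mem_filter.1 hM
        exact ⟨(hs M h7).1, by omega, h9⟩)
      rw [hR, hN]
      have ha' : a = A.card ^ (1 + (k' - 1)) := by
        rw [ha]
        congr 1
      rw [ha']
      refine h6.trans (Nat.mul_le_mul_right _ (hpow _ ?_))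
      have : k' * (2 * n + 1) ≤ (k' + 1) * (2 * n + 1) := Nat.mul_le_mul_right _ (by omega)
      have e5 : n * (n * n) * (n + 1) ≤ N ^ 4 := by rw [← hN]; exact e4
      omega
  have hb2 : ∀ j, (S2 j).card * a ≤ Q * R := by
    intro j
    have h6 := case_two (k := k) hL w hw hwL F A hA hAF j (S2 j) (by
      intro M hM
      obtain ⟨h7, h8, h9, h10⟩ := Finset.mem_filter.1 hM
      exact ⟨(hs M h7).1, (hs M h7).2.1, h8, h9, h10⟩)
    rw [hR, hN]
    have ha' : (S2 j).card * a ≤ (S2 j).card * A.card ^ (1 + (k - 1)) := by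
      rw [ha]
      exact Nat.mul_le_mul_left _ (Nat.pow_le_pow_right hA.card_pos (by omega))
    refine (ha'.trans h6).trans (Nat.mul_le_mul_right _ ?_)
    calc (F.card + 2) ^ (k * (2 * n + 1) + (n + 1) + n * (n * n) * (n + 1)) *
        (F.card + 1) ^ ((n + 1) * ((n + 1) * (n + 1)))
        ≤ (F.card + 2) ^ (k * (2 * n + 1) + (n + 1) + n * (n * n) * (n + 1)) *
        (F.card + 2) ^ ((n + 1) * ((n + 1) * (n + 1))) :=
          Nat.mul_le_mul_left _ (Nat.pow_le_pow_left (by omega) _)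
      _ = (F.card + 2) ^ (k * (2 * n + 1) + (n + 1) + n * (n * n) * (n + 1) +
        (n + 1) * ((n + 1) * (n + 1))) := (pow_add _ _ _).symm
      _ ≤ Q := by
          apply hpow
          have e5 : n * (n * n) * (n + 1) ≤ N ^ 4 := by rw [← hN]; exact e4
          have e6 : (n + 1) * ((n + 1) * (n + 1)) ≤ N ^ 4 := by rw [← hN]; exact e3
          omega
  have hb3 : S3.card * a ≤ Q * R := by
    rw [ha]
    have h6 := mid_count (k := k) hL w hw hwL F A hA hAF (S3.image Function.swap) (by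
      intro M hM
      obtain ⟨M', hM', rfl⟩ := Finset.mem_image.1 hM
      obtain ⟨h7, h8⟩ := Finset.mem_filter.1 hM'
      refine ⟨fun i l => (hs M' h7).1 _ _, ?_, (hs M' h7).2.2.2, h8⟩
      rw [finrank_swap]
      exact (hs M' h7).2.1)
    rw [Finset.card_image_of_injective _ (fun M M' h => by
      funext i l
      exact congrFun (congrFun h l) i)] at h6
    rw [hR, hN]
    refine h6.trans (Nat.mul_le_mul_right _ (hpow _ ?_))
    have e7 : (n + 1) * ((n + 1) * (n + 1)) * (n + 1) = N ^ 4 := by rw [hN]; ring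
    have e8 : k * (2 * (n + 1) + 1) ≤ 3 * N ^ 2 := by
      calc k * (2 * (n + 1) + 1) ≤ N * (3 * N) := Nat.mul_le_mul hkN (by omega)
        _ = 3 * N ^ 2 := by ring
    omega
  have hcard : s.card ≤ (∑ j, ((S1 j).card + (S2 j).card)) + S3.card := by
    refine (Finset.card_le_card hcover).trans ((Finset.card_union_le _ _).trans ?_)
    apply Nat.add_le_add_right
    refine Finset.card_biUnion_le.trans ?_
    exact Finset.sum_le_sum fun j _ => Finset.card_union_le _ _
  have hfin : s.card * a ≤ (2 * N + 1) * (Q * R) := by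
    calc s.card * a ≤ ((∑ j, ((S1 j).card + (S2 j).card)) + S3.card) * a :=
          Nat.mul_le_mul_right _ hcard
      _ = (∑ j, ((S1 j).card * a + (S2 j).card * a)) + S3.card * a := by
          rw [add_mul, Finset.sum_mul]
          simp only [add_mul]
      _ ≤ (∑ _j : Fin (n + 1), (Q * R + Q * R)) + Q * R := by
          apply Nat.add_le_add _ hb3
          exact Finset.sum_le_sum fun j _ => Nat.add_le_add (hb1 j) (hb2 j)
      _ = (2 * N + 1) * (Q * R) := by
          rw [Finset.sum_const, Finset.card_univ, Fintype.card_fin, smul_eq_mul, hN]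
          ring
  have hsmall : 2 * N + 1 ≤ (F.card + 2) ^ (3 * N) := by
    calc 2 * N + 1 ≤ 2 ^ (3 * N) := by
          have h8 : ∀ x : ℕ, 2 * x + 1 ≤ 2 ^ (3 * x) := by
            intro x
            rw [pow_mul]
            norm_num
            induction x with
            | zero => simp
            | succ x ih => rw [pow_succ]; omega
          exact h8 N
      _ ≤ (F.card + 2) ^ (3 * N) := Nat.pow_le_pow_left (by omega) _
  rw [← ha]
  calc s.card * a ≤ (2 * N + 1) * (Q * R) := hfin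
    _ ≤ (F.card + 2) ^ (3 * N) * (Q * R) := Nat.mul_le_mul_right _ hsmall
    _ = (F.card + 2) ^ (3 * N ^ 4 + 4 * N ^ 2 + 4 * N) * R := by
        rw [hQ, ← mul_assoc, ← pow_add]
        congr 2
        ring
    _ = _ := by rw [hR, hN]

end counting2

end Pool.Agent.TH910.LR
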