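import Pool.Agent.TH910.LR.Alg

/-!
# Counting matrices of low rank
-/

set_option autoImplicit false

namespace Pool.Agent.TH910.LR

open Module Finset
open Pool.Agent.W254.PA (Hyp)

variable {κ E : Type*} [Field κ] [Field E] [Algebra κ E]

/-- few coordinates determine the elements of a space -/
theorem exists_coords {n : ℕ} (U : Submodule κ (Fin n → κ)) :
    ∃ J : Finset (Fin n), J.card ≤ finrank κ U ∧ ∀ c ∈ U, (∀ i ∈ J, c i = 0) → c = 0 := by
  classical
  have main : ∀ (s : ℕ) (J : Finset (Fin n)), J.card = s → (∀ c ∈ U, (∀ i ∈ J, c i = 0) → c = 0) →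
      ∃ J : Finset (Fin n), J.card ≤ finrank κ U ∧ ∀ c ∈ U, (∀ i ∈ J, c i = 0) → c = 0 := by
    intro s
    induction s with
    | zero =>
      intro J hJ h
      exact ⟨J, by omega, h⟩
    | succ s ih =>
      intro J hJ h
      by_cases hex : ∃ j ∈ J, ∀ c ∈ U, (∀ i ∈ J.erase j, c i = 0) → c = 0
      · obtain ⟨j, hj, h1⟩ := hex
        exact ih (J.erase j) (by rw [Finset.card_erase_of_mem hj]; omega) h1
      · push Not at hex
        refine ⟨J, ?_, h⟩
        choose! c hcU hc0 hcne using hex
        have hdiag : ∀ j ∈ J, c j j ≠ 0 := by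
          intro j hj h0
          apply hcne j hj
          apply h _ (hcU j hj)
          intro i hi
          by_cases hij : i = j
          · rw [hij]; exact h0
          · exact hc0 j hj i (Finset.mem_erase.2 ⟨hij, hi⟩)
        have hli : LinearIndependent κ (fun j : J => (⟨c j, hcU j j.2⟩ : U)) := by
          rw [Fintype.linearIndependent_iff]
          intro g hg j
          have h2 := congrArg (fun z : U => (z : Fin n → κ) j) hg
          simp only [Submodule.coe_sum, Submodule.coe_smul, Finset.sum_apply, Pi.smul_apply,
            smul_eq_mul, Submodule.coe_zero, Pi.zero_apply] at h2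
          rw [Finset.sum_eq_single j] at h2
          · exact (mul_eq_zero.1 h2).resolve_right (hdiag j j.2)
          · intro j' _ hj'
            rw [hc0 j' j'.2 j (Finset.mem_erase.2 ⟨fun h => hj' (Subtype.ext h.symm), j.2⟩), mul_zero]
          · intro h; exact absurd (Finset.mem_univ j) h
        have h3 := hli.fintype_card_le_finrank
        rwa [Fintype.card_coe] at h3
  exact main _ Finset.univ rfl (fun c _ h => funext fun i => h i (Finset.mem_univ i))

/-- the number of rows which are congruent to a given one modulo a space of dimension `s` -/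
theorem card_fibre {B : Type*} {n : ℕ} (A : Finset (B →₀ κ)) (hA : A.Nonempty)
    (U : Submodule κ (Fin n → κ)) (r₀ : Fin n → (B →₀ κ)) [DecidableEq B]
    (s : Finset (Fin n → (B →₀ κ))) (hs : ∀ r ∈ s, (∀ i, r i ∈ A) ∧
      ∀ b, (fun i => r i b - r₀ i b) ∈ U) :
    s.card ≤ A.card ^ finrank κ U := by
  classical
  obtain ⟨J, hJ, h⟩ := exists_coords U
  have h1 : s.card ≤ (Fintype.piFinset fun _ : J => A).card := by
    refine Finset.card_le_card_of_injOn (fun r => fun j : J => r j) ?_ ?_
    · intro r hr
      simp only [Finset.mem_coe, Fintype.mem_piFinset]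
      intro j
      exact (hs r hr).1 _
    · intro r hr r' hr' hrr
      have h2 : ∀ b, (fun i => r i b - r' i b) = 0 := by
        intro b
        apply h
        · have := U.sub_mem ((hs r hr).2 b) ((hs r' hr').2 b)
          convert this using 1
          funext i
          simp
        · intro i hi
          have h3 := congrFun hrr ⟨i, hi⟩
          simp only at h3
          rw [h3, sub_self]
      funext i
      ext b
      have := congrFun (h2 b) i
      simpa [sub_eq_zero] using this
  refine h1.trans ?_
  rw [Fintype.card_piFinset, Finset.prod_const, Finset.card_univ, Fintype.card_coe]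
  exact Nat.pow_le_pow_right hA.card_pos hJ

/-- differences of elements of a finite set -/
def dif [DecidableEq κ] (F : Finset κ) : Finset κ := (F ×ˢ F).image fun x => x.1 - x.2

theorem card_dif_le [DecidableEq κ] (F : Finset κ) : (dif F).card ≤ F.card * F.card := by
  refine Finset.card_image_le.trans ?_
  rw [Finset.card_product]

/-- vectors all of whose coordinates are differences of elements of `F` -/
def TT [DecidableEq κ] (F : Finset κ) (n : ℕ) : Finset (Fin n → κ) :=
  Fintype.piFinset fun _ => dif F

/-- the space spanned by the small rational vectors of `V` -/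
def WT [DecidableEq κ] (F : Finset κ) {n : ℕ} (V : Submodule E (Fin n → E)) :
    Submodule κ (Fin n → κ) :=
  Submodule.span κ {c | c ∈ TT F n ∧ cv E c ∈ V}

/-- the row vector attached to a tuple of coefficient vectors -/
noncomputable def vec {B : Type*} (w : B → E) {n : ℕ} (r : Fin n → (B →₀ κ)) : Fin n → E :=
  fun i => Finsupp.linearCombination κ w (r i)

theorem cv_sub {n : ℕ} (c c' : Fin n → κ) : cv E (fun i => c i - c' i) = cv E c - cv E c' := by
  funext i
  simp [cv]

theorem cv_mem_span {n : ℕ} (V : Submodule E (Fin n → E)) {c : Fin n → κ}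
    {S : Set (Fin n → κ)} (hS : ∀ c ∈ S, cv E c ∈ V) (hc : c ∈ Submodule.span κ S) :
    cv E c ∈ V := by
  refine Submodule.span_induction (p := fun c _ => cv E c ∈ V) ?_ ?_ ?_ ?_ hc
  · intro c hc; exact hS c hc
  · convert V.zero_mem using 1
    funext i; simp [cv]
  · intro a b _ _ ha hb
    convert V.add_mem ha hb using 1
    funext i; simp [cv]
  · intro a b _ hb
    convert V.smul_mem (algebraMap κ E a) hb using 1
    funext i; simp [cv]

/-- **Points of a space.** -/
theorem card_points [Countable κ] [Uncountable E] [DecidableEq κ] {L : Submodule κ E} (hL : Hyp L)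
    {B : Type*} [DecidableEq B] (w : B → E) (hw : LinearIndependent κ w) (hwL : ∀ b, w b ∈ L) {n : ℕ}
    (F : Finset κ) (A : Finset (B →₀ κ)) (hA : A.Nonempty) (hAF : ∀ α ∈ A, ∀ b, α b ∈ F)
    (V : Submodule E (Fin n → E)) (s : Finset (Fin n → (B →₀ κ)))
    (hs : ∀ r ∈ s, (∀ i, r i ∈ A) ∧ vec w r ∈ V) :
    s.card ≤ A.card ^ finrank κ (WT F V) * (F.card + 1) ^ (n * (n * n)) := by
  classical
  obtain ⟨P, hPc, hP⟩ := few_points hL w hw hwL V
  have h1 := Finset.card_le_mul_card_image_of_maps_to (s := s)
    (t := Fintype.piFinset fun _ : P => Fintype.piFinset fun _ : Fin n => F)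
    (f := fun r => fun (b : P) i => r i b) (by
      intro r hr
      simp only [Fintype.mem_piFinset]
      intro b i
      exact hAF _ ((hs r hr).1 i) _) (A.card ^ finrank κ (WT F V)) (by
      intro δ _
      rcases (s.filter fun r => (fun (b : P) i => r i b) = δ).eq_empty_or_nonempty with he | ⟨r₀, hr₀⟩
      · rw [he]; simp
      · rw [Finset.mem_filter] at hr₀
        apply card_fibre A hA (WT F V) r₀
        intro r hr
        rw [Finset.mem_filter] at hr
        refine ⟨(hs r hr.1).1, fun b => ?_⟩
        have hdiff := hP (fun i => r i - r₀ i) (by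
          have := V.sub_mem (hs r hr.1).2 (hs r₀ hr₀.1).2
          convert this using 1
          funext i
          simp [vec]) (by
          intro b' hb'
          have h2 : (fun i => (r i - r₀ i) b') = (0 : Fin n → κ) := by
            funext i
            have h3 := congrFun (congrFun (hr.2.trans hr₀.2.symm) ⟨b', hb'⟩) i
            simp only at h3
            simp [h3]
          rw [h2]
          convert V.zero_mem using 1
          funext i; simp [cv]) b
        apply Submodule.subset_span
        refine ⟨?_, ?_⟩
        · rw [TT, Fintype.mem_piFinset]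
          intro i
          rw [dif, Finset.mem_image]
          exact ⟨(r i b, r₀ i b), Finset.mem_product.2 ⟨hAF _ ((hs r hr.1).1 i) _,
            hAF _ ((hs r₀ hr₀.1).1 i) _⟩, rfl⟩
        · convert hdiff using 2
          funext i
          rw [Finsupp.sub_apply])
  refine h1.trans (Nat.mul_le_mul_left _ ?_)
  rw [Fintype.card_piFinset]
  simp only [Fintype.card_piFinset, Finset.prod_const, Finset.card_univ, Fintype.card_fin,
    Fintype.card_coe]
  rw [← pow_mul]
  calc F.card ^ (n * P.card) ≤ (F.card + 1) ^ (n * P.card) := Nat.pow_le_pow_left (by omega) _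
    _ ≤ (F.card + 1) ^ (n * (n * n)) :=
      Nat.pow_le_pow_right (by omega) (Nat.mul_le_mul_left _ hPc)

/-- rational independence is preserved -/
theorem li_cv {ι : Type*} [Fintype ι] {n : ℕ} (v : ι → Fin n → κ) (hv : LinearIndependent κ v) :
    LinearIndependent E (fun i => cv E (v i)) := by
  classical
  let f : (ι → κ) →ₗ[κ] (Fin n → κ) := Fintype.linearCombination κ v
  have hf : Function.Injective f := by
    rw [← LinearMap.ker_eq_bot, LinearMap.ker_eq_bot']
    intro c hc
    rw [Fintype.linearIndependent_iff] at hv
    funext i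
    apply hv c _ i
    rw [← hc, Fintype.linearCombination_apply]
  obtain ⟨g, hg⟩ := LinearMap.exists_leftInverse_of_injective f (LinearMap.ker_eq_bot.2 hf)
  rw [Fintype.linearIndependent_iff]
  intro e he i₀
  let γ : Fin n → κ := fun k => g (Pi.single k 1) i₀
  have hγ : ∀ c : Fin n → κ, g c i₀ = ∑ k, γ k * c k := by
    intro c
    have h1 : c = ∑ k, c k • (Pi.single k 1 : Fin n → κ) := by
      funext k
      rw [Finset.sum_apply, Finset.sum_eq_single k]
      · simp
      · intro i _ hik
        simp [Ne.symm hik]
      · simp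
    conv_lhs => rw [h1]
    rw [map_sum, Finset.sum_apply]
    apply Finset.sum_congr rfl
    intro k _
    rw [map_smul, Pi.smul_apply, smul_eq_mul, mul_comm]
  have hgv : ∀ i, ∑ k, γ k * v i k = if i = i₀ then 1 else 0 := by
    intro i
    rw [← hγ]
    have h2 : f (Pi.single i 1) = v i := by
      rw [Fintype.linearCombination_apply, Finset.sum_eq_single i]
      · simp
      · intro j _ hj
        simp [hj]
      · simp
    have h3 := congrArg (fun l : (ι → κ) →ₗ[κ] (ι → κ) => l (Pi.single i 1) i₀) hg
    simp only [LinearMap.comp_apply, LinearMap.id_apply, h2] at h3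
    rw [h3, Pi.single_apply]
    simp only [eq_comm]
  have h4 : ∑ k, algebraMap κ E (γ k) * ∑ i, e i * algebraMap κ E (v i k) = 0 := by
    apply Finset.sum_eq_zero
    intro k _
    have h5 := congrFun he k
    rw [Finset.sum_apply] at h5
    simp only [Pi.smul_apply, smul_eq_mul, cv, Pi.zero_apply] at h5
    rw [h5, mul_zero]
  have h6 : ∑ k, algebraMap κ E (γ k) * ∑ i, e i * algebraMap κ E (v i k) =
      ∑ i, e i * algebraMap κ E (∑ k, γ k * v i k) := by
    simp only [Finset.mul_sum, map_sum, map_mul]
    rw [Finset.sum_comm]
    apply Finset.sum_congr rfl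
    intro i _
    apply Finset.sum_congr rfl
    intro k _
    ring
  rw [h6, Finset.sum_eq_single i₀] at h4
  · rw [hgv, if_pos rfl, map_one, mul_one] at h4
    exact h4
  · intro i _ hi
    rw [hgv, if_neg hi, map_zero, mul_zero]
  · intro h; exact absurd (Finset.mem_univ i₀) h

end Pool.Agent.TH910.LR
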