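import Pool.Agent.TH910.LR.Ints

/-!
# The final form of the bounds: proportions among the matrices of low rank
-/

set_option autoImplicit false

namespace Pool.Agent.TH910.LR

open Module Finset Matrix

/-- The `m × n` matrices of rank at most `k` with entries in `A`. -/
def LowRank {E : Type*} [Field E] (A : Finset E) (m n k : ℕ) : Set (Matrix (Fin m) (Fin n) E) :=
  {M | (∀ i j, M i j ∈ A) ∧ M.rank ≤ k}

/-- The statement of the theorem: `K` is a field containing the coefficients, `q` is the number of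
coefficients plus two, `A` and `A'` are the sets of entries. -/
def Counting {E : Type*} [Field E] [CharZero E] (K : IntermediateField ℚ E) (q : ℕ)
    (A A' : Finset E) : Prop :=
  -- points of a subspace with coordinates in `A`
  (∀ (n : ℕ) (V : Submodule E (Fin n → E)),
    {x : Fin n → E | (∀ i, x i ∈ A) ∧ x ∈ V}.ncard ≤ q ^ (n ^ 3) * A.card ^ algDim V) ∧
  -- the number of matrices of rank at most `k`
  (∀ m n k : ℕ, 1 ≤ k → k ≤ m → k ≤ n →
    A.card ^ (k * max m n) ≤ (LowRank A m n k).ncard ∧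
    (LowRank A m n k).ncard ≤ q ^ expo m n * A.card ^ (k * max m n)) ∧
  -- more rows than columns: almost all kernels are spanned by vectors over `K`
  (∀ m n k : ℕ, n < m → 1 ≤ k → k ≤ n →
    {M ∈ LowRank A m n k | ¬ RatKernel K M}.ncard * A.card ^ (m - n + (k - 1)) ≤
      q ^ expo m n * (LowRank A m n k).ncard) ∧
  -- square matrices of rank at most `n - 2`: the same for the kernel or the left kernel
  (∀ n k : ℕ, 1 ≤ k → k + 2 ≤ n →
    {M ∈ LowRank A n n k | ¬ RatKernel K M ∧ ¬ RatKernel K Mᵀ}.ncard * A.card ^ (1 + (k - 2)) ≤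
      q ^ expo n n * (LowRank A n n k).ncard) ∧
  -- singular square matrices, of size at least three, with one row from a larger set
  (∀ n : ℕ, 2 ≤ n → A.card ≤ A'.card →
    {M ∈ Sing A A' n | ¬ RatVector K M ∧ ¬ RatVector K Mᵀ}.ncard *
        (A.card ^ (n - 1) * A'.card ^ 2) ≤
      q ^ expo (n + 1) (n + 1) * (A.card ^ (n + 1) + (n - 1) * A'.card ^ 2) *
        (Sing A A' n).ncard) ∧
  -- singular two by two matrices with one row from a larger set
  (A.card ≤ A'.card →
    {M ∈ Sing A A' 1 | ¬ RatVector K M ∧ ¬ RatVector K Mᵀ}.ncard * A'.card ≤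
      q ^ expo 2 2 * A.card * (Sing A A' 1).ncard)

theorem counting_of_upper {E : Type*} [Field E] [CharZero E] {K : IntermediateField ℚ E} {q : ℕ}
    {A A' : Finset E} (h : UpperBounds K q A A') : Counting K q A A' := by
  obtain ⟨h1, h2, h3, h4, h5⟩ := h
  refine ⟨h1, ?_, ?_, ?_, ?_, ?_⟩
  · intro m n k hk hm hn
    exact ⟨rank_lower A hk hm hn, h2 m n k hm⟩
  · intro m n k hnm hk hn
    have e : {M ∈ LowRank A m n k | ¬ RatKernel K M} =
        {M : Matrix (Fin m) (Fin n) E | (∀ i j, M i j ∈ A) ∧ M.rank ≤ k ∧ ¬ RatKernel K M} := by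
      ext M
      simp only [LowRank, Set.mem_setOf_eq, and_assoc]
    rw [e]
    refine (h3 m n k hnm hn).trans (Nat.mul_le_mul_left _ ?_)
    have h6 := rank_lower A hk (by omega : k ≤ m) hn
    rwa [max_eq_left hnm.le] at h6
  · intro n k hk hkn
    have e : {M ∈ LowRank A n n k | ¬ RatKernel K M ∧ ¬ RatKernel K Mᵀ} =
        {M : Matrix (Fin n) (Fin n) E | (∀ i j, M i j ∈ A) ∧ M.rank ≤ k ∧
          ¬ RatKernel K M ∧ ¬ RatKernel K Mᵀ} := by
      ext M
      simp only [LowRank, Set.mem_setOf_eq, and_assoc]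
    rw [e]
    refine (h4 n k hkn).trans (Nat.mul_le_mul_left _ ?_)
    have h6 := rank_lower A hk (by omega : k ≤ n) (by omega : k ≤ n)
    rwa [max_self] at h6
  · intro n hn hAA
    have e : {M ∈ Sing A A' n | ¬ RatVector K M ∧ ¬ RatVector K Mᵀ} =
        {M : Matrix (Fin (n + 1)) (Fin (n + 1)) E |
          (∀ (i : Fin n) j, M i.castSucc j ∈ A) ∧ (∀ j, M (Fin.last n) j ∈ A') ∧ M.det = 0 ∧
            ¬ RatVector K M ∧ ¬ RatVector K Mᵀ} := by
      ext M
      simp only [Sing, Set.mem_setOf_eq, and_assoc]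
    rw [e]
    have h6 := sing_lower_rows A A' hn
    have h7 := h5 n hAA
    obtain ⟨N, rfl⟩ : ∃ N, n = N + 1 := ⟨n - 1, by omega⟩
    simp only [Nat.add_sub_cancel] at h6 h7 ⊢
    refine (Nat.mul_le_mul_right _ h7).trans ?_
    calc q ^ expo (N + 1 + 1) (N + 1 + 1) * (A.card ^ ((N + 1) * (N + 1) + 1) * A'.card ^ N +
          N * (A.card ^ ((N + 1) * N) * A'.card ^ (N + 1 + 1))) * (A.card ^ N * A'.card ^ 2)
        = q ^ expo (N + 1 + 1) (N + 1 + 1) * (A.card ^ (N + 1 + 1) + N * A'.card ^ 2) *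
          (A.card ^ (N * (N + 1 + 1)) * A'.card ^ (N + 1 + 1)) := by ring
      _ ≤ _ := Nat.mul_le_mul_left _ h6
  · intro hAA
    have e : {M ∈ Sing A A' 1 | ¬ RatVector K M ∧ ¬ RatVector K Mᵀ} =
        {M : Matrix (Fin (1 + 1)) (Fin (1 + 1)) E |
          (∀ (i : Fin 1) j, M i.castSucc j ∈ A) ∧ (∀ j, M (Fin.last 1) j ∈ A') ∧ M.det = 0 ∧
            ¬ RatVector K M ∧ ¬ RatVector K Mᵀ} := by
      ext M
      simp only [Sing, Set.mem_setOf_eq, and_assoc]
    rw [e]
    have h6 := sing_lower_cols A A'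
    have h7 := h5 1 hAA
    refine (Nat.mul_le_mul_right _ h7).trans ?_
    calc q ^ expo (1 + 1) (1 + 1) * (A.card ^ (1 * 1 + 1) * A'.card ^ (1 - 1) +
          (1 - 1) * (A.card ^ (1 * (1 - 1)) * A'.card ^ (1 + 1))) * A'.card
        = q ^ expo 2 2 * A.card * (A.card * A'.card) := by
          simp only [Nat.sub_self, zero_mul, add_zero, pow_zero, mul_one]
          ring
      _ ≤ _ := Nat.mul_le_mul_left _ h6

/-- a nonzero rational vector in the kernel gives a rational zero coefficient -/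
theorem zero_of_ratVector {E : Type*} [Field E] [CharZero E] {m : ℕ}
    {M : Matrix (Fin (m + 1)) (Fin (m + 1)) E}
    (h : RatVector (⊥ : IntermediateField ℚ E) M ∨ RatVector (⊥ : IntermediateField ℚ E) Mᵀ) :
    ∃ w v : Fin (m + 1) → ℚ, w ≠ 0 ∧ v ≠ 0 ∧ ∑ i, ∑ j, (w i : E) * M i j * (v j : E) = 0 := by
  have key : ∀ N : Matrix (Fin (m + 1)) (Fin (m + 1)) E,
      RatVector (⊥ : IntermediateField ℚ E) N → ∃ v : Fin (m + 1) → ℚ, v ≠ 0 ∧
        ∀ i, ∑ j, N i j * (v j : E) = 0 := by
    rintro N ⟨v, hv0, hv, hN⟩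
    have h1 : ∀ i, ∃ r : ℚ, (r : E) = v i := by
      intro i
      obtain ⟨r, hr⟩ := IntermediateField.mem_bot.1 (hv i)
      exact ⟨r, by rw [← hr]; simp⟩
    choose r hr using h1
    refine ⟨r, ?_, ?_⟩
    · rintro rfl
      apply hv0
      funext i
      rw [← hr i]
      simp
    · intro i
      have h2 := congrFun hN i
      simp only [hr]
      exact h2
  rcases h with h | h
  · obtain ⟨v, hv, hM⟩ := key M h
    refine ⟨fun _ => 1, v, ?_, hv, ?_⟩
    · intro hcon
      exact one_ne_zero (congrFun hcon 0)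
    · apply Finset.sum_eq_zero
      intro i _
      have := hM i
      simpa using this
  · obtain ⟨w, hw, hM⟩ := key Mᵀ h
    refine ⟨w, fun _ => 1, hw, ?_, ?_⟩
    · intro hcon
      exact one_ne_zero (congrFun hcon 0)
    · rw [Finset.sum_comm]
      apply Finset.sum_eq_zero
      intro j _
      have := hM j
      simp only [Matrix.transpose_apply] at this
      simpa [mul_comm] using this

end Pool.Agent.TH910.LR
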