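import Pool.Agent.TH910.LR.Row

/-!
# Points of subspaces and matrices of low rank with entries in a finite set of combinations
-/

set_option autoImplicit false

namespace Pool.Agent.TH910.LR

open Module Finset Matrix
open Pool.Agent.W254.PA (Hyp)

/-- The dimension of the space spanned by the vectors of `V` with algebraic coordinates. -/
noncomputable def algDim {E : Type*} [Field E] [CharZero E] {n : ℕ}
    (V : Submodule E (Fin n → E)) : ℕ :=
  finrank E (Submodule.span E {v : Fin n → E | v ∈ V ∧ ∀ i, IsAlgebraic ℚ (v i)})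

/-- The kernel of `M` is spanned by vectors with coordinates in `K`. -/
def RatKernel {E : Type*} [Field E] [CharZero E] (K : IntermediateField ℚ E) {m n : ℕ}
    (M : Matrix (Fin m) (Fin n) E) : Prop :=
  ∀ u : Fin n → E, M *ᵥ u = 0 →
    u ∈ Submodule.span E {v : Fin n → E | M *ᵥ v = 0 ∧ ∀ i, v i ∈ K}

/-- The kernel of `M` contains a nonzero vector with coordinates in `K`. -/
def RatVector {E : Type*} [Field E] [CharZero E] (K : IntermediateField ℚ E) {m n : ℕ}
    (M : Matrix (Fin m) (Fin n) E) : Prop :=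
  ∃ v : Fin n → E, v ≠ 0 ∧ (∀ i, v i ∈ K) ∧ M *ᵥ v = 0

/-- The exponent in the bounds below. -/
def expo (m n : ℕ) : ℕ := 3 * max m n ^ 4 + 4 * max m n ^ 2 + 4 * max m n

/-- The upper bounds: `K` is a field which contains the coefficients, `q` is the number of
coefficients plus two, `A` and `A'` are the sets of entries. -/
def UpperBounds {E : Type*} [Field E] [CharZero E] (K : IntermediateField ℚ E) (q : ℕ)
    (A A' : Finset E) : Prop :=
  -- points of a subspace with coordinates in `A`
  (∀ (n : ℕ) (V : Submodule E (Fin n → E)),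
    Set.ncard {x : Fin n → E | (∀ i, x i ∈ A) ∧ x ∈ V} ≤ q ^ (n ^ 3) * A.card ^ algDim V) ∧
  -- matrices of rank at most `k`
  (∀ m n k : ℕ, k ≤ m → Set.ncard {M : Matrix (Fin m) (Fin n) E | (∀ i j, M i j ∈ A) ∧
    M.rank ≤ k} ≤ q ^ expo m n * A.card ^ (k * max m n)) ∧
  -- more rows than columns
  (∀ m n k : ℕ, n < m → k ≤ n → Set.ncard {M : Matrix (Fin m) (Fin n) E | (∀ i j, M i j ∈ A) ∧
    M.rank ≤ k ∧ ¬ RatKernel K M} * A.card ^ (m - n + (k - 1)) ≤
      q ^ expo m n * A.card ^ (k * m)) ∧
  -- square matrices of rank at most `n - 2`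
  (∀ n k : ℕ, k + 2 ≤ n → Set.ncard {M : Matrix (Fin n) (Fin n) E | (∀ i j, M i j ∈ A) ∧
    M.rank ≤ k ∧ ¬ RatKernel K M ∧ ¬ RatKernel K Mᵀ} * A.card ^ (1 + (k - 2)) ≤
      q ^ expo n n * A.card ^ (k * n)) ∧
  -- singular square matrices with one row from a larger set
  (∀ n : ℕ, A.card ≤ A'.card → Set.ncard {M : Matrix (Fin (n + 1)) (Fin (n + 1)) E |
    (∀ (i : Fin n) j, M i.castSucc j ∈ A) ∧ (∀ j, M (Fin.last n) j ∈ A') ∧ M.det = 0 ∧
    ¬ RatVector K M ∧ ¬ RatVector K Mᵀ} ≤
      q ^ expo (n + 1) (n + 1) * (A.card ^ (n * n + 1) * A'.card ^ (n - 1) +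
        (n - 1) * (A.card ^ (n * (n - 1)) * A'.card ^ (n + 1))))

variable {κ E : Type*} [Field κ] [Field E] [Algebra κ E]

/-- the small rational vectors of `V` -/
theorem finrank_WT_le [DecidableEq κ] (F : Finset κ) {n : ℕ} (V W : Submodule E (Fin n → E))
    (h : ∀ c : Fin n → κ, cv E c ∈ V → cv E c ∈ W) : finrank κ (WT F V) ≤ finrank E W := by
  classical
  let b := Module.finBasis κ (WT F V)
  have h1 : LinearIndependent κ (fun i => ((b i : WT F V) : Fin n → κ)) :=
    b.linearIndependent.map' (WT F V).subtype (WT F V).ker_subtype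
  have h2 := li_cv (E := E) _ h1
  have h3 : ∀ i, cv E ((b i : WT F V) : Fin n → κ) ∈ W := by
    intro i
    apply h
    exact cv_mem_span V (fun c hc => hc.2) (b i).2
  have h4 : LinearIndependent E (fun i => (⟨_, h3 i⟩ : W)) :=
    LinearIndependent.of_comp W.subtype h2
  have h5 := h4.fintype_card_le_finrank
  rwa [Fintype.card_fin] at h5

/-- coefficient vectors of matrices -/
theorem transfer [DecidableEq κ] {B : Type*} [DecidableEq B] (w : B → E)
    (A₀ : Finset E) (α : E → (B →₀ κ)) (hα : ∀ z ∈ A₀, Finsupp.linearCombination κ w (α z) = z)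
    {m n : ℕ} (S : Set (Matrix (Fin m) (Fin n) E)) (hS : ∀ M ∈ S, ∀ i j, M i j ∈ A₀) :
    ∃ s : Finset (Fin m → Fin n → (B →₀ κ)), s.card = S.ncard ∧
      ∀ P ∈ s, ∃ M ∈ S, (∀ i j, P i j = α (M i j)) ∧ EV w P = M := by
  classical
  have hfin : S.Finite := by
    apply Set.Finite.subset (Finset.finite_toSet
      (Fintype.piFinset fun _ : Fin m => Fintype.piFinset fun _ : Fin n => A₀))
    intro M hM
    rw [Finset.mem_coe, Fintype.mem_piFinset]
    intro i
    rw [Fintype.mem_piFinset]
    intro j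
    exact hS M hM i j
  refine ⟨hfin.toFinset.image fun M i j => α (M i j), ?_, ?_⟩
  · rw [Finset.card_image_of_injOn, Set.ncard_eq_toFinset_card S hfin]
    intro M hM M' hM' hMM
    rw [Finset.mem_coe, Set.Finite.mem_toFinset] at hM hM'
    funext i j
    rw [← hα _ (hS M hM i j), ← hα _ (hS M' hM' i j)]
    exact congrArg _ (congrFun (congrFun hMM i) j)
  · intro P hP
    obtain ⟨M, hM, rfl⟩ := Finset.mem_image.1 hP
    rw [Set.Finite.mem_toFinset] at hM
    refine ⟨M, hM, fun i j => rfl, ?_⟩
    funext i j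
    exact hα _ (hS M hM i j)

section descent

variable [CharZero E] {B : Type*} (w : B → E) (hw : LinearIndependent κ w)
  (K : IntermediateField ℚ E)

/-- vectors satisfying the equations coefficient by coefficient -/
theorem EV_mulVec_zero {m n : ℕ} (P : Fin m → Fin n → (B →₀ κ)) (z : Fin n → E)
    (h : ∀ i b, ∑ l, algebraMap κ E (P i l b) * z l = 0) : EV w P *ᵥ z = 0 := by
  classical
  funext i
  change ∑ l, Finsupp.linearCombination κ w (P i l) * z l = 0
  let S : Finset B := Finset.univ.biUnion fun l => (P i l).support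
  have h1 : ∀ l, Finsupp.linearCombination κ w (P i l) =
      ∑ b ∈ S, algebraMap κ E (P i l b) * w b := by
    intro l
    rw [Finsupp.linearCombination_apply, Finsupp.sum_of_support_subset (s := S)]
    · apply Finset.sum_congr rfl
      intro b _
      rw [Algebra.smul_def]
    · exact Finset.subset_biUnion_of_mem (fun l => (P i l).support) (Finset.mem_univ l)
    · intro b _
      rw [zero_smul]
  simp only [h1, Finset.sum_mul]
  rw [Finset.sum_comm]
  apply Finset.sum_eq_zero
  intro b _
  calc ∑ l, algebraMap κ E (P i l b) * w b * z l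
      = w b * ∑ l, algebraMap κ E (P i l b) * z l := by
        rw [Finset.mul_sum]
        apply Finset.sum_congr rfl
        intro l _
        ring
    _ = 0 := by rw [h i b, mul_zero]

include hw in
theorem coeff_zero_of_mulVec {m n : ℕ} (P : Fin m → Fin n → (B →₀ κ)) (c : Fin n → κ)
    (h : EV w P *ᵥ cv E c = 0) : ∀ i b, ∑ l, algebraMap κ E (P i l b) * cv E c l = 0 := by
  intro i b
  have h1 := congrFun h i
  change ∑ l, Finsupp.linearCombination κ w (P i l) * algebraMap κ E (c l) = 0 at h1
  have h2 : Finsupp.linearCombination κ w (∑ l, c l • P i l) =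
      Finsupp.linearCombination κ w 0 := by
    rw [map_zero, ← h1, map_sum]
    apply Finset.sum_congr rfl
    intro l _
    rw [map_smul, Algebra.smul_def, mul_comm]
  have h3 := hw h2
  have h4 := congrArg (fun f : B →₀ κ => algebraMap κ E (f b)) h3
  simp only [Finsupp.finsetSum_apply, Finsupp.smul_apply, smul_eq_mul, map_sum, map_mul,
    Finsupp.zero_apply, map_zero] at h4
  rw [← h4]
  apply Finset.sum_congr rfl
  intro l _
  simp only [cv]
  ring

include hw in
/-- decomposition of a rational kernel vector over `K` -/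
theorem descent {m n : ℕ} (P : Fin m → Fin n → (B →₀ κ))
    (hPK : ∀ i l b, algebraMap κ E (P i l b) ∈ K) (c : Fin n → κ) (h : EV w P *ᵥ cv E c = 0) :
    ∃ (d : ℕ) (x : Fin d → E) (v : Fin d → Fin n → E), cv E c = ∑ j, x j • v j ∧
      ∀ j, EV w P *ᵥ v j = 0 ∧ ∀ i, v j i ∈ K := by
  obtain ⟨d, x, Q, hx, hu⟩ := exists_decomp (κ := K) (cv E c)
  refine ⟨d, x, fun j => cv E (Q j), hu, fun j => ⟨?_, fun i => (Q j i).2⟩⟩
  apply EV_mulVec_zero
  intro i b
  have h1 := coeff_zero_of_mulVec w hw P c h i b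
  let a : Fin n → K := fun l => ⟨algebraMap κ E (P i l b), hPK i l b⟩
  have h2 : ∑ j, (∑ l, a l * Q j l) • x j = 0 := by
    rw [← h1, hu]
    simp only [Finset.sum_apply, Pi.smul_apply, smul_eq_mul, Finset.mul_sum]
    rw [Finset.sum_comm]
    apply Finset.sum_congr rfl
    intro j _
    rw [Algebra.smul_def, map_sum, Finset.sum_mul]
    apply Finset.sum_congr rfl
    intro l _
    rw [map_mul]
    change algebraMap κ E (P i l b) * ((Q j l : K) : E) * x j =
      algebraMap κ E (P i l b) * (x j * ((Q j l : K) : E))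
    ring
  have h3 := Fintype.linearIndependent_iff.1 hx _ h2 j
  have h4 := congrArg (fun z : K => (z : E)) h3
  simp only [AddSubmonoidClass.coe_finset_sum, MulMemClass.coe_mul, ZeroMemClass.coe_zero] at h4
  exact h4

include hw in
theorem ratKernel_of_KR {m n : ℕ} (P : Fin m → Fin n → (B →₀ κ))
    (hPK : ∀ i l b, algebraMap κ E (P i l b) ∈ K) (h : KR κ (EV w P)) :
    RatKernel K (EV w P) := by
  intro u hu
  refine (Submodule.span_le.2 ?_) (h u hu)
  rintro v ⟨hv, c, rfl⟩
  obtain ⟨d, x, v, hcv, hvj⟩ := descent w hw K P hPK c hv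
  rw [SetLike.mem_coe, hcv]
  apply Submodule.sum_mem
  intro j _
  exact Submodule.smul_mem _ _ (Submodule.subset_span (hvj j))

include hw in
theorem ratVector_of_hasRat {m n : ℕ} (P : Fin m → Fin n → (B →₀ κ))
    (hPK : ∀ i l b, algebraMap κ E (P i l b) ∈ K) (h : HasRat κ (EV w P)) :
    RatVector K (EV w P) := by
  obtain ⟨c, hc0, hc⟩ := h
  obtain ⟨d, x, v, hcv, hvj⟩ := descent w hw K P hPK c hc
  by_contra hcon
  apply hc0
  have h1 : ∀ j, v j = 0 := by
    intro j
    by_contra hj
    exact hcon ⟨v j, hj, (hvj j).2, (hvj j).1⟩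
  have h2 : cv E c = 0 := by
    rw [hcv]
    apply Finset.sum_eq_zero
    intro j _
    rw [h1 j, smul_zero]
  funext i
  have h3 := congrFun h2 i
  exact (map_eq_zero (algebraMap κ E)).1 h3

end descent

theorem exps (m n : ℕ) : m * (2 * n + 1) + m + n * (n * n) * m ≤ expo m n := by
  obtain ⟨N, hN⟩ : ∃ N, N = max m n := ⟨_, rfl⟩
  have hm : m ≤ N := by rw [hN]; exact le_max_left _ _
  have hn : n ≤ N := by rw [hN]; exact le_max_right _ _
  rw [expo, ← hN]
  have e1 : m * (2 * n + 1) ≤ N * (2 * N + 1) := Nat.mul_le_mul hm (by omega)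
  have e2 : n * (n * n) * m ≤ N ^ 4 := by
    calc n * (n * n) * m ≤ N * (N * N) * N := by gcongr
      _ = N ^ 4 := by ring
  have e3 : N * (2 * N + 1) = 2 * N ^ 2 + N := by ring
  omega

/-- **All the upper bounds.** -/
theorem upperBounds [CharZero E] [Countable κ] [Uncountable E] {L : Submodule κ E} (hL : Hyp L)
    {B : Type*} (w : B → E) (hw : LinearIndependent κ w) (hwL : ∀ b, w b ∈ L)
    (F : Finset κ) (K : IntermediateField ℚ E) (hFK : ∀ c ∈ F, algebraMap κ E c ∈ K)
    (hκ : ∀ c : κ, IsAlgebraic ℚ (algebraMap κ E c)) (q : ℕ) (hq : F.card + 2 ≤ q)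
    (A A' : Finset E) (hA : A.Nonempty)
    (hAF : ∀ z, z ∈ A ∨ z ∈ A' →
      ∃ α : B →₀ κ, (∀ b, α b ∈ F) ∧ Finsupp.linearCombination κ w α = z) :
    UpperBounds K q A A' := by
  classical
  choose! α hαF hα using hAF
  have hcardα : ∀ S : Finset E, (∀ z ∈ S, z ∈ A ∨ z ∈ A') → (S.image α).card = S.card := by
    intro S hS
    apply Finset.card_image_of_injOn
    intro z hz z' hz' hzz
    rw [← hα z (hS z hz), ← hα z' (hS z' hz'), hzz]
  have hc1 := hcardα A (fun z hz => Or.inl hz)
  have hc2 := hcardα A' (fun z hz => Or.inr hz)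
  have hA1 : (A.image α).Nonempty := hA.image _
  have hAF1 : ∀ β ∈ A.image α, ∀ b, β b ∈ F := by
    intro β hβ b
    obtain ⟨z, hz, rfl⟩ := Finset.mem_image.1 hβ
    exact hαF z (Or.inl hz) b
  have hAF2 : ∀ β ∈ A'.image α, ∀ b, β b ∈ F := by
    intro β hβ b
    obtain ⟨z, hz, rfl⟩ := Finset.mem_image.1 hβ
    exact hαF z (Or.inr hz) b
  have hqpow : ∀ a b : ℕ, a ≤ b → (F.card + 2) ^ a ≤ q ^ b := fun a b hab =>
    (Nat.pow_le_pow_left hq a).trans (Nat.pow_le_pow_right (by omega) hab)
  have hAA : ∀ z ∈ A ∪ A', Finsupp.linearCombination κ w (α z) = z := by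
    intro z hz
    exact hα z (Finset.mem_union.1 hz)
  refine ⟨?_, ?_, ?_, ?_, ?_⟩
  · -- points
    intro n V
    obtain ⟨X, hX⟩ : ∃ X : Finset (Fin n → E),
        X = (Fintype.piFinset fun _ : Fin n => A).filter fun x => x ∈ V := ⟨_, rfl⟩
    have hXc : Set.ncard {x : Fin n → E | (∀ i, x i ∈ A) ∧ x ∈ V} = X.card := by
      rw [← Set.ncard_coe_finset]
      congr 1
      ext x
      simp [hX, Fintype.mem_piFinset]
    have hsc : (X.image fun x i => α (x i)).card = X.card := by
      apply Finset.card_image_of_injOn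
      intro x hx x' hx' hxx
      rw [hX, Finset.mem_coe, Finset.mem_filter, Fintype.mem_piFinset] at hx hx'
      funext i
      rw [← hα _ (Or.inl (hx.1 i)), ← hα _ (Or.inl (hx'.1 i))]
      exact congrArg _ (congrFun hxx i)
    have h1 := card_points hL w hw hwL F (A.image α) hA1 hAF1 V (X.image fun x i => α (x i)) (by
      intro r hr
      obtain ⟨x, hx, rfl⟩ := Finset.mem_image.1 hr
      rw [hX, Finset.mem_filter, Fintype.mem_piFinset] at hx
      refine ⟨fun i => Finset.mem_image_of_mem _ (hx.1 i), ?_⟩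
      convert hx.2 using 1
      funext i
      exact hα _ (Or.inl (hx.1 i)))
    rw [hXc, ← hsc, mul_comm]
    rw [hc1] at h1
    refine h1.trans (Nat.mul_le_mul ?_ ?_)
    · apply Nat.pow_le_pow_right hA.card_pos
      apply finrank_WT_le F V
      intro c hc
      exact Submodule.subset_span ⟨hc, fun i => hκ _⟩
    · calc (F.card + 1) ^ (n * (n * n)) ≤ (F.card + 2) ^ (n * (n * n)) :=
            Nat.pow_le_pow_left (by omega) _
        _ ≤ q ^ (n ^ 3) := hqpow _ _ (by rw [show n ^ 3 = n * (n * n) by ring])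
  · -- low rank
    intro m n k hk
    obtain ⟨s, hs, hsP⟩ := transfer w (A ∪ A') α hAA
      {M : Matrix (Fin m) (Fin n) E | (∀ i j, M i j ∈ A) ∧ M.rank ≤ k}
      (fun M hM i j => Finset.mem_union_left _ (hM.1 i j))
    rw [← hs]
    have h1 := main_count (k := k) hL w hw hwL F (A.image α) hA1 hAF1 (k * max m n) s (by
      intro P hP
      obtain ⟨M, hM, hPM, hEV⟩ := hsP P hP
      have hrk : finrank E (RS w P) ≤ k := by rw [← rank_EV, hEV]; exact hM.2
      obtain ⟨c, I, h1, h2, h3, -⟩ := exists_param (k := k) w F P hrk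
      refine ⟨fun i j => ?_, c, I, h1, h2, h3, exp_le k m n I.card (by omega)⟩
      rw [hPM]
      exact Finset.mem_image_of_mem _ (hM.1 i j))
    rw [hc1] at h1
    refine h1.trans (Nat.mul_le_mul_right _ (hqpow _ _ (le_trans ?_ (exps m n))))
    have := Nat.mul_le_mul_right (2 * n + 1) hk
    omega
  · -- more rows than columns
    intro m n k hnm hk
    obtain ⟨s, hs, hsP⟩ := transfer w (A ∪ A') α hAA
      {M : Matrix (Fin m) (Fin n) E | (∀ i j, M i j ∈ A) ∧ M.rank ≤ k ∧ ¬ RatKernel K M}
      (fun M hM i j => Finset.mem_union_left _ (hM.1 i j))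
    rw [← hs]
    have h1 := tall_count (k := k) hL w hw hwL F (A.image α) hA1 hAF1 hnm s (by
      intro P hP
      obtain ⟨M, hM, hPM, hEV⟩ := hsP P hP
      refine ⟨fun i j => ?_, ?_, ?_⟩
      · rw [hPM]
        exact Finset.mem_image_of_mem _ (hM.1 i j)
      · rw [← rank_EV, hEV]; exact hM.2.1
      · intro hKR
        apply hM.2.2
        rw [← hEV]
        apply ratKernel_of_KR w hw K P _ hKR
        intro i l b
        rw [hPM]
        exact hFK _ (hαF _ (Or.inl (hM.1 i l)) b))
    rw [hc1] at h1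
    refine h1.trans (Nat.mul_le_mul_right _ (hqpow _ _ (le_trans ?_ (exps m n))))
    have := Nat.mul_le_mul_right (2 * n + 1) (show k ≤ m by omega)
    omega
  · -- square matrices
    intro n k hk
    obtain ⟨n', rfl⟩ : ∃ n', n = n' + 1 := ⟨n - 1, by omega⟩
    obtain ⟨s, hs, hsP⟩ := transfer w (A ∪ A') α hAA
      {M : Matrix (Fin (n' + 1)) (Fin (n' + 1)) E | (∀ i j, M i j ∈ A) ∧
        M.rank ≤ k ∧ ¬ RatKernel K M ∧ ¬ RatKernel K Mᵀ}
      (fun M hM i j => Finset.mem_union_left _ (hM.1 i j))
    rw [← hs]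
    have h1 := square_count (k := k) (n := n') hL w hw hwL F (A.image α) hA1 hAF1 (by omega) s (by
      intro P hP
      obtain ⟨M, hM, hPM, hEV⟩ := hsP P hP
      have hPK : ∀ i l b, algebraMap κ E (P i l b) ∈ K := by
        intro i l b
        rw [hPM]
        exact hFK _ (hαF _ (Or.inl (hM.1 i l)) b)
      refine ⟨fun i j => ?_, ?_, ?_, ?_⟩
      · rw [hPM]
        exact Finset.mem_image_of_mem _ (hM.1 i j)
      · rw [← rank_EV, hEV]; exact hM.2.1
      · intro hKR
        apply hM.2.2.1
        rw [← hEV]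
        exact ratKernel_of_KR w hw K P hPK hKR
      · intro hKR
        apply hM.2.2.2
        rw [← hEV, ← EV_swap]
        exact ratKernel_of_KR w hw K (Function.swap P) (fun i l b => hPK l i b) hKR)
    rw [hc1] at h1
    refine h1.trans (Nat.mul_le_mul_right _ (hqpow _ _ ?_))
    rw [expo, max_self]
  · -- one row from a larger set
    intro n hcard
    obtain ⟨s, hs, hsP⟩ := transfer w (A ∪ A') α hAA
      {M : Matrix (Fin (n + 1)) (Fin (n + 1)) E |
        (∀ (i : Fin n) j, M i.castSucc j ∈ A) ∧ (∀ j, M (Fin.last n) j ∈ A') ∧ M.det = 0 ∧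
        ¬ RatVector K M ∧ ¬ RatVector K Mᵀ}
      (fun M hM i j => by
        revert i
        refine Fin.lastCases ?_ ?_
        · exact Finset.mem_union_right _ (hM.2.1 j)
        · intro i; exact Finset.mem_union_left _ (hM.1 i j))
    rw [← hs]
    have h1 := row_count (n := n) hL w hw hwL F (A.image α) (A'.image α) hA1
      (by rw [hc1, hc2]; exact hcard) hAF1 hAF2 s (by
      intro P hP
      obtain ⟨M, hM, hPM, hEV⟩ := hsP P hP
      have hPK : ∀ i l b, algebraMap κ E (P i l b) ∈ K := by
        intro i l b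
        rw [hPM]
        apply hFK
        apply hαF
        revert i
        refine Fin.lastCases ?_ ?_
        · exact Or.inr (hM.2.1 l)
        · intro i; exact Or.inl (hM.1 i l)
      refine ⟨fun i j => ?_, fun j => ?_, ?_, ?_, ?_⟩
      · rw [hPM]
        exact Finset.mem_image_of_mem _ (hM.1 i j)
      · rw [hPM]
        exact Finset.mem_image_of_mem _ (hM.2.1 j)
      · rw [← rank_EV, hEV]
        have h2 : M.rank < n + 1 := by
          by_contra hcon
          have h3 : M.rank = n + 1 := le_antisymm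
            ((Matrix.rank_le_card_height M).trans (by simp)) (by omega)
          have h4 : LinearIndependent E M.row := by
            rw [linearIndependent_iff_card_eq_finrank_span, Fintype.card_fin, Set.finrank,
              ← Matrix.rank_eq_finrank_span_row, h3]
          have h5 := Matrix.linearIndependent_rows_iff_isUnit.1 h4
          rw [Matrix.isUnit_iff_isUnit_det, hM.2.2.1] at h5
          exact not_isUnit_zero h5
        omega
      · intro hR
        apply hM.2.2.2.1
        rw [← hEV]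
        exact ratVector_of_hasRat w hw K P hPK hR
      · intro hR
        apply hM.2.2.2.2
        rw [← hEV, ← EV_swap]
        exact ratVector_of_hasRat w hw K (Function.swap P) (fun i l b => hPK l i b) hR)
    rw [hc1, hc2] at h1
    refine h1.trans (Nat.mul_le_mul_right _ (hqpow _ _ ?_))
    rw [expo, max_self]

end Pool.Agent.TH910.LR
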