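import Pool.Agent.TH910.LR.Gen
import Pool.Agent.W254.HP.Opt
import Pool.Agent.W254.PA.App

/-!
# Logarithms of algebraic numbers, complex and `p`-adic
-/

set_option autoImplicit false

namespace Pool.Agent.TH910.LR

open Module Finset
open Pool.Agent.W254.PA (Hyp)

/-- `z` is a combination of `1` and of finitely many of the numbers `ℓ b`, with all coefficients
in `F`. -/
def IsComb {E : Type*} [Field E] {B : Type*} (ℓ : B → E) (F : Finset E) (z : E) : Prop :=
  ∃ c₀ ∈ F, ∃ c : B →₀ E, (∀ b, c b ∈ F) ∧ z = c₀ + c.sum fun b a => a * ℓ b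

section general

variable {E : Type*} [Field E] [CharZero E]

theorem countable_alg : Countable (algebraicClosure ℚ E : IntermediateField ℚ E) := by
  have h := Algebraic.countable ℚ E
  have h2 : ((algebraicClosure ℚ E : IntermediateField ℚ E) : Set E) = {x : E | IsAlgebraic ℚ x} := by
    ext x
    exact mem_algebraicClosure_iff
  rw [← h2] at h
  exact h.to_subtype

/-- truncation to the algebraic numbers -/
noncomputable def tr (z : E) : (algebraicClosure ℚ E : IntermediateField ℚ E) :=
  open Classical in if h : IsAlgebraic ℚ z then ⟨z, mem_algebraicClosure_iff.2 h⟩ else 0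

theorem tr_zero : tr (0 : E) = 0 := by
  unfold tr
  rw [dif_pos isAlgebraic_zero]
  rfl

theorem coe_tr {z : E} (h : IsAlgebraic ℚ z) : ((tr z : _) : E) = z := by
  unfold tr
  rw [dif_pos h]

variable {B : Type*} (ℓ : B → E) (F : Finset E) (hF : ∀ c ∈ F, IsAlgebraic ℚ c)

include hF in
theorem exists_coeffs [DecidableEq (algebraicClosure ℚ E : IntermediateField ℚ E)] (z : E)
    (hz : IsComb ℓ F z) : ∃ α : Option B →₀ (algebraicClosure ℚ E : IntermediateField ℚ E),
    (∀ b, α b ∈ F.image tr) ∧
      Finsupp.linearCombination (algebraicClosure ℚ E : IntermediateField ℚ E)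
        (fun o : Option B => (o.elim 1 ℓ : E)) α = z := by
  classical
  obtain ⟨c₀, hc₀, c, hc, hzc⟩ := hz
  let c' : B →₀ (algebraicClosure ℚ E : IntermediateField ℚ E) := c.mapRange tr tr_zero
  refine ⟨Finsupp.single none (tr c₀) + c'.mapDomain some, ?_, ?_⟩
  · intro o
    cases o with
    | none =>
      have hnone : (c'.mapDomain some) (none : Option B) = 0 := by
        apply Finsupp.mapDomain_of_notMem_range
        simp
      rw [Finsupp.add_apply, Finsupp.single_eq_same, hnone, add_zero]
      exact Finset.mem_image_of_mem _ hc₀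
    | some b =>
      rw [Finsupp.add_apply, Finsupp.single_apply, if_neg (by simp),
        Finsupp.mapDomain_apply (Option.some_injective B), zero_add, Finsupp.mapRange_apply]
      exact Finset.mem_image_of_mem _ (hc b)
  · rw [map_add, Finsupp.linearCombination_single, Finsupp.linearCombination_mapDomain,
      Finsupp.linearCombination_apply, Algebra.smul_def]
    have e1 : (algebraMap (algebraicClosure ℚ E : IntermediateField ℚ E) E) (tr c₀) = c₀ :=
      coe_tr (hF _ hc₀)
    rw [e1, hzc]
    simp only [Option.elim_none, mul_one]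
    congr 1
    rw [Finsupp.sum_mapRange_index (by intro b; rw [zero_smul])]
    apply Finsupp.sum_congr
    intro b _
    rw [Algebra.smul_def]
    have e2 : (algebraMap (algebraicClosure ℚ E : IntermediateField ℚ E) E) (tr (c b)) = c b :=
      coe_tr (hF _ (hc b))
    rw [e2]
    rfl

/-- the upper bounds for combinations of `1` and of the numbers `ℓ b` -/
theorem upperBounds_comb [Uncountable E]
    {L : Submodule (algebraicClosure ℚ E : IntermediateField ℚ E) E} (hL : Hyp L)
    (hw : LinearIndependent (algebraicClosure ℚ E : IntermediateField ℚ E)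
      (fun o : Option B => (o.elim 1 ℓ : E)))
    (h1L : (1 : E) ∈ L) (hwL : ∀ b, ℓ b ∈ L) (hF : ∀ c ∈ F, IsAlgebraic ℚ c)
    (K : IntermediateField ℚ E) (hFK : ∀ c ∈ F, c ∈ K) (A A' : Finset E) (hA : A.Nonempty)
    (hAF : ∀ z, z ∈ A ∨ z ∈ A' → IsComb ℓ F z) :
    UpperBounds K (F.card + 2) A A' := by
  classical
  haveI := countable_alg (E := E)
  refine upperBounds hL (fun o : Option B => (o.elim 1 ℓ : E)) hw (by
    intro o
    cases o with
    | none => exact h1L
    | some b => exact hwL b) (F.image tr) K ?_ ?_ (F.card + 2) ?_ A A' hA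
    (fun z hz => exists_coeffs ℓ F hF z (hAF z hz))
  · intro c hc
    obtain ⟨f, hf, rfl⟩ := Finset.mem_image.1 hc
    have e : (algebraMap (algebraicClosure ℚ E : IntermediateField ℚ E) E) (tr f) = f :=
      coe_tr (hF _ hf)
    rw [e]
    exact hFK f hf
  · intro c
    exact mem_algebraicClosure_iff.1 c.2
  · have : (F.image (tr (E := E))).card ≤ F.card := Finset.card_image_le
    omega

end general

section complex

open Pool.Agent.H301R2.SSE (QB mem_QB Lt Lt_rep Lt_mul Lt_alg Lt_log)

theorem hyp_complex : Hyp Lt := fun d l x a hx ha hxa hcol =>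
  Pool.Agent.W254.HP.hyperplane d l x a hx ha hxa hcol

instance : Uncountable ℂ := Function.Injective.uncountable Complex.ofReal_injective

/-- **Complex logarithms.** -/
theorem upperBounds_complex {B : Type} (ℓ : B → ℂ) (hℓ : ∀ b, IsAlgebraic ℚ (Complex.exp (ℓ b)))
    (hli : LinearIndependent ℚ ℓ) (F : Finset ℂ) (hF : ∀ c ∈ F, IsAlgebraic ℚ c)
    (K : IntermediateField ℚ ℂ) (hFK : ∀ c ∈ F, c ∈ K) (A A' : Finset ℂ)
    (hA : A.Nonempty) (hAF : ∀ z, z ∈ A ∨ z ∈ A' → IsComb ℓ F z) :
    UpperBounds K (F.card + 2) A A' :=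
  upperBounds_comb ℓ F hyp_complex (Pool.Agent.W254.HP.opt_indep ℓ hℓ hli)
    (Lt_alg isAlgebraic_one) (fun b => Lt_log (hℓ b)) hF K hFK A A' hA hAF

end complex

section padic

open Pool.Agent.W254.PA Pool.Agent.W245.PB

variable {p : ℕ} [hp : Fact p.Prime]

theorem uncountable_padic : Uncountable (PadicAlgCl p) := by
  have h1 : Uncountable ℚ_[p] := by
    rw [← Cardinal.aleph0_lt_mk_iff]
    exact Cardinal.aleph0_lt_continuum.trans_le
      (continuum_le_cardinal_of_nontriviallyNormedField ℚ_[p])
  exact Function.Injective.uncountable (algebraMap ℚ_[p] (PadicAlgCl p)).injective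

/-- **`p`-adic logarithms.** -/
theorem upperBounds_padic {Lg : PadicAlgCl p → PadicAlgCl p}
    (hLg : Pool.Agent.W245.PB.IsIwasawaLog p Lg)
    {B : Type} (α : B → PadicAlgCl p) (hα0 : ∀ b, α b ≠ 0) (hα : ∀ b, IsAlgebraic ℚ (α b))
    (hli : LinearIndependent ℚ fun b => Lg (α b)) (F : Finset (PadicAlgCl p))
    (hF : ∀ c ∈ F, IsAlgebraic ℚ c) (K : IntermediateField ℚ (PadicAlgCl p))
    (hFK : ∀ c ∈ F, c ∈ K) (A A' : Finset (PadicAlgCl p))
    (hA : A.Nonempty) (hAF : ∀ z, z ∈ A ∨ z ∈ A' → IsComb (fun b => Lg (α b)) F z) :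
    UpperBounds K (F.card + 2) A A' := by
  haveI := uncountable_padic (p := p)
  exact upperBounds_comb (fun b => Lg (α b)) F (hyp_padic hLg) (optP_indep hLg α hα0 hα hli)
    one_memP (fun b => log_memP (hα0 b) (hα b)) hF K hFK A A' hA hAF

end padic

end Pool.Agent.TH910.LR
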