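import Pool.Agent.TH910.LR.Gen

/-!
# Lower bounds: many matrices of low rank
-/

set_option autoImplicit false

namespace Pool.Agent.TH910.LR

open Module Finset Matrix

variable {E : Type*} [Field E]

theorem finite_entries {m n : ℕ} (A : Finset E) (S : Set (Matrix (Fin m) (Fin n) E))
    (hS : ∀ M ∈ S, ∀ i j, M i j ∈ A) : S.Finite := by
  classical
  apply Set.Finite.subset (Finset.finite_toSet
    (Fintype.piFinset fun _ : Fin m => Fintype.piFinset fun _ : Fin n => A))
  intro M hM
  rw [Finset.mem_coe, Fintype.mem_piFinset]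
  intro i
  rw [Fintype.mem_piFinset]
  intro j
  exact hS M hM i j

/-- the surjection `j ↦ min j (k - 1)` -/
def cut (n k : ℕ) (hk : 1 ≤ k) (j : Fin n) : Fin k := ⟨min (j : ℕ) (k - 1), by omega⟩

theorem cut_surj {n k : ℕ} (hk : 1 ≤ k) (hn : k ≤ n) : Function.Surjective (cut n k hk) := by
  intro l
  refine ⟨⟨l, lt_of_lt_of_le l.2 hn⟩, ?_⟩
  apply Fin.ext
  have := l.2
  change min (l : ℕ) (k - 1) = l
  omega

theorem rank_cols {m n k : ℕ} (N : Matrix (Fin m) (Fin k) E) (f : Fin n → Fin k) :
    (Matrix.of fun i j => N i (f j) : Matrix (Fin m) (Fin n) E).rank ≤ k := by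
  have h : (Matrix.of fun i j => N i (f j) : Matrix (Fin m) (Fin n) E) =
      N * (Matrix.of fun (l : Fin k) (j : Fin n) => if l = f j then (1 : E) else 0) := by
    ext i j
    rw [Matrix.mul_apply]
    simp
  rw [h]
  exact (Matrix.rank_mul_le_left _ _).trans (Matrix.rank_le_width N)

theorem rank_rows {m n k : ℕ} (N : Matrix (Fin k) (Fin n) E) (f : Fin m → Fin k) :
    (Matrix.of fun i j => N (f i) j : Matrix (Fin m) (Fin n) E).rank ≤ k := by
  have h : (Matrix.of fun i j => N (f i) j : Matrix (Fin m) (Fin n) E) =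
      (Matrix.of fun (i : Fin m) (l : Fin k) => if l = f i then (1 : E) else 0) * N := by
    ext i j
    rw [Matrix.mul_apply]
    simp
  rw [h]
  exact (Matrix.rank_mul_le_right _ _).trans (Matrix.rank_le_height N)

/-- there are many matrices of rank at most `k` -/
theorem rank_lower (A : Finset E) {m n k : ℕ} (hk : 1 ≤ k) (hm : k ≤ m) (hn : k ≤ n) :
    A.card ^ (k * max m n) ≤
      Set.ncard {M : Matrix (Fin m) (Fin n) E | (∀ i j, M i j ∈ A) ∧ M.rank ≤ k} := by
  classical
  have hfin := finite_entries A {M : Matrix (Fin m) (Fin n) E | (∀ i j, M i j ∈ A) ∧ M.rank ≤ k}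
    (fun M hM => hM.1)
  rcases le_total n m with h | h
  · rw [max_eq_left h]
    have h1 : A.card ^ (k * m) = Set.ncard (↑(Fintype.piFinset fun _ : Fin m =>
        Fintype.piFinset fun _ : Fin k => A) : Set (Fin m → Fin k → E)) := by
      rw [Set.ncard_coe_finset]
      simp [pow_mul]
    rw [h1]
    apply Set.ncard_le_ncard_of_injOn
      (fun N => (Matrix.of fun i j => N i (cut n k hk j) : Matrix (Fin m) (Fin n) E)) _ _ hfin
    · intro N hN
      rw [Finset.mem_coe, Fintype.mem_piFinset] at hN
      refine ⟨fun i j => ?_, rank_cols N _⟩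
      exact Fintype.mem_piFinset.1 (hN i) _
    · intro N hN N' hN' hNN
      funext i l
      obtain ⟨j, rfl⟩ := cut_surj hk hn l
      exact congrFun (congrFun hNN i) j
  · rw [max_eq_right h]
    have h1 : A.card ^ (k * n) = Set.ncard (↑(Fintype.piFinset fun _ : Fin k =>
        Fintype.piFinset fun _ : Fin n => A) : Set (Fin k → Fin n → E)) := by
      rw [Set.ncard_coe_finset]
      simp [pow_mul, pow_right_comm]
    rw [h1]
    apply Set.ncard_le_ncard_of_injOn
      (fun N => (Matrix.of fun i j => N (cut m k hk i) j : Matrix (Fin m) (Fin n) E)) _ _ hfin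
    · intro N hN
      rw [Finset.mem_coe, Fintype.mem_piFinset] at hN
      refine ⟨fun i j => ?_, rank_rows N _⟩
      exact Fintype.mem_piFinset.1 (hN _) _
    · intro N hN N' hN' hNN
      funext l j
      obtain ⟨i, rfl⟩ := cut_surj hk hm l
      exact congrFun (congrFun hNN i) j

/-- the set of the singular matrices with the last row in `A'` and the other rows in `A` -/
def Sing (A A' : Finset E) (n : ℕ) : Set (Matrix (Fin (n + 1)) (Fin (n + 1)) E) :=
  {M | (∀ (i : Fin n) j, M i.castSucc j ∈ A) ∧ (∀ j, M (Fin.last n) j ∈ A') ∧ M.det = 0}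

theorem sing_finite (A A' : Finset E) (n : ℕ) : (Sing A A' n).Finite := by
  classical
  apply finite_entries (A ∪ A')
  intro M hM i j
  revert i
  refine Fin.lastCases ?_ ?_
  · exact Finset.mem_union_right _ (hM.2.1 j)
  · intro i; exact Finset.mem_union_left _ (hM.1 i j)

/-- matrices with two equal rows -/
theorem sing_lower_rows (A A' : Finset E) {n : ℕ} (hn : 2 ≤ n) :
    A.card ^ ((n - 1) * (n + 1)) * A'.card ^ (n + 1) ≤ (Sing A A' n).ncard := by
  classical
  have hn1 : 1 ≤ n - 1 := by omega
  have h1 : A.card ^ ((n - 1) * (n + 1)) * A'.card ^ (n + 1) =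
      Set.ncard (↑((Fintype.piFinset fun _ : Fin (n - 1) =>
        Fintype.piFinset fun _ : Fin (n + 1) => A) ×ˢ
          (Fintype.piFinset fun _ : Fin (n + 1) => A')) :
            Set ((Fin (n - 1) → Fin (n + 1) → E) × (Fin (n + 1) → E))) := by
    rw [Set.ncard_coe_finset]
    simp [pow_mul, pow_right_comm]
  rw [h1]
  apply Set.ncard_le_ncard_of_injOn
    (fun N => (Matrix.of (Fin.snoc (α := fun _ => Fin (n + 1) → E)
      (fun i : Fin n => N.1 (cut n (n - 1) hn1 i)) N.2) :
        Matrix (Fin (n + 1)) (Fin (n + 1)) E)) _ _ (sing_finite A A' n)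
  · rintro ⟨N, x⟩ hN
    rw [Finset.mem_coe, Finset.mem_product, Fintype.mem_piFinset] at hN
    refine ⟨fun i j => ?_, fun j => ?_, ?_⟩
    · simp only [Matrix.of_apply, Fin.snoc_castSucc]
      exact Fintype.mem_piFinset.1 (hN.1 _) _
    · simp only [Matrix.of_apply, Fin.snoc_last]
      exact Fintype.mem_piFinset.1 hN.2 _
    · apply Matrix.det_zero_of_row_eq
        (i := (⟨n - 2, by omega⟩ : Fin n).castSucc) (j := (⟨n - 1, by omega⟩ : Fin n).castSucc)
      · intro h
        have h2 := congrArg Fin.val h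
        simp only [Fin.val_castSucc] at h2
        omega
      · funext j
        simp only [Matrix.of_apply, Fin.snoc_castSucc]
        have h3 : cut n (n - 1) hn1 ⟨n - 2, by omega⟩ = cut n (n - 1) hn1 ⟨n - 1, by omega⟩ := by
          apply Fin.ext
          change min (n - 2) (n - 1 - 1) = min (n - 1) (n - 1 - 1)
          omega
        rw [h3]
  · rintro ⟨N, x⟩ hN ⟨N', x'⟩ hN' hNN
    have e1 : N = N' := by
      funext l j
      obtain ⟨i, rfl⟩ := cut_surj (n := n) hn1 (by omega) l
      have h2 := congrFun (congrFun hNN i.castSucc) j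
      simpa only [Matrix.of_apply, Fin.snoc_castSucc] using h2
    have e2 : x = x' := by
      funext j
      have h2 := congrFun (congrFun hNN (Fin.last n)) j
      simpa only [Matrix.of_apply, Fin.snoc_last] using h2
    rw [e1, e2]

/-- matrices with two equal columns -/
theorem sing_lower_cols (A A' : Finset E) : A.card * A'.card ≤ (Sing A A' 1).ncard := by
  classical
  have h1 : A.card * A'.card = Set.ncard (↑(A ×ˢ A') : Set (E × E)) := by
    rw [Set.ncard_coe_finset, Finset.card_product]
  rw [h1]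
  apply Set.ncard_le_ncard_of_injOn
    (fun N => (Matrix.of (fun i _ => Fin.snoc (α := fun _ => E)
      (fun _ : Fin 1 => N.1) N.2 i) : Matrix (Fin (1 + 1)) (Fin (1 + 1)) E)) _ _
        (sing_finite A A' 1)
  · rintro ⟨a, b⟩ hN
    rw [Finset.mem_coe, Finset.mem_product] at hN
    refine ⟨fun i j => ?_, fun j => ?_, ?_⟩
    · simp only [Matrix.of_apply, Fin.snoc_castSucc]
      exact hN.1
    · simp only [Matrix.of_apply, Fin.snoc_last]
      exact hN.2
    · apply Matrix.det_zero_of_column_eq (i := (0 : Fin (1 + 1))) (j := (1 : Fin (1 + 1)))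
      · simp
      · intro k
        rfl
  · rintro ⟨a, b⟩ hN ⟨a', b'⟩ hN' hNN
    have e1 := congrFun (congrFun hNN (Fin.castSucc 0)) 0
    have e2 := congrFun (congrFun hNN (Fin.last 1)) 0
    simp only [Matrix.of_apply, Fin.snoc_castSucc] at e1
    simp only [Matrix.of_apply, Fin.snoc_last] at e2
    rw [e1, e2]

end Pool.Agent.TH910.LR
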