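import Pool.Agent.TH910.LR.Inst
import Pool.Agent.TH910.LR.Low
import Mathlib.Analysis.SpecialFunctions.Log.Basic

/-!
# Logarithms of integers, and the final form of the bounds
-/

set_option autoImplicit false

namespace Pool.Agent.TH910.LR

open Module Finset Matrix

/-- The logarithms of the integers from `1` to `X`. -/
noncomputable def logs (X : ℕ) : Finset ℂ :=
  (Finset.Icc 1 X).image fun a : ℕ => (Real.log a : ℂ)

theorem card_logs (X : ℕ) : (logs X).card = X := by
  rw [logs, Finset.card_image_of_injOn, Nat.card_Icc, Nat.add_sub_cancel]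
  intro a ha b hb hab
  rw [Finset.mem_coe, Finset.mem_Icc] at ha hb
  have h1 : Real.log a = Real.log b := Complex.ofReal_injective hab
  have h2 := Real.log_injOn_pos (Set.mem_Ioi.2 (by exact_mod_cast ha.1 : (0 : ℝ) < a))
    (Set.mem_Ioi.2 (by exact_mod_cast hb.1 : (0 : ℝ) < b)) h1
  exact_mod_cast h2

theorem logs_mono {X Y : ℕ} (h : X ≤ Y) : logs X ⊆ logs Y :=
  Finset.image_subset_image (Finset.Icc_subset_Icc le_rfl h)

/-- the coefficients -/
noncomputable def coe0 (Y : ℕ) : Finset ℂ :=
  (Finset.range (Nat.log 2 Y + 1)).image fun a : ℕ => (a : ℂ)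

theorem card_coe0 (Y : ℕ) : (coe0 Y).card = Nat.log 2 Y + 1 := by
  rw [coe0, Finset.card_image_of_injective _ Nat.cast_injective, Finset.card_range]

theorem mem_coe0 {Y : ℕ} {e : ℕ} (h : e ≤ Nat.log 2 Y) : (e : ℂ) ∈ coe0 Y :=
  Finset.mem_image_of_mem _ (Finset.mem_range.2 (by omega))

theorem isComb_log {Y a : ℕ} (ha : 1 ≤ a) (haY : a ≤ Y) :
    IsComb (fun p : Nat.Primes => (Real.log (p : ℕ) : ℂ)) (coe0 Y) (Real.log a : ℂ) := by
  classical
  have hinj : Function.Injective (fun p : Nat.Primes => (p : ℕ)) := fun p q h => Subtype.ext h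
  have hbij : Set.BijOn (fun p : Nat.Primes => (p : ℕ))
      ((fun p : Nat.Primes => (p : ℕ)) ⁻¹' ↑a.factorization.support) ↑a.factorization.support := by
    refine ⟨fun p hp => hp, hinj.injOn, ?_⟩
    intro p hp
    have hpp : p.Prime := Nat.prime_of_mem_primeFactors (by simpa using hp)
    exact ⟨⟨p, hpp⟩, hp, rfl⟩
  refine ⟨0, by simpa using mem_coe0 (Y := Y) (Nat.zero_le _),
    (a.factorization.comapDomain (fun p : Nat.Primes => (p : ℕ)) hbij.injOn).mapRange
      (fun e : ℕ => (e : ℂ)) Nat.cast_zero, ?_, ?_⟩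
  · intro p
    rw [Finsupp.mapRange_apply, Finsupp.comapDomain_apply]
    apply mem_coe0
    apply Nat.le_log_of_pow_le (by norm_num)
    calc 2 ^ a.factorization p ≤ (p : ℕ) ^ a.factorization p :=
          Nat.pow_le_pow_left p.2.two_le _
      _ ≤ a := Nat.ordProj_le p (by omega)
      _ ≤ Y := haY
  · rw [zero_add, Finsupp.sum_mapRange_index (by intro b; rw [zero_mul])]
    have h1 := Finsupp.sum_comapDomain (fun p : Nat.Primes => (p : ℕ)) a.factorization
      (fun (p : ℕ) (e : ℕ) => (e : ℂ) * (Real.log p : ℂ)) hbij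
    have h2 : (Real.log a : ℂ) = a.factorization.sum
        (fun (p : ℕ) (e : ℕ) => (e : ℂ) * (Real.log p : ℂ)) := by
      rw [Real.log_nat_eq_sum_factorization]
      simp only [Finsupp.sum, Complex.ofReal_sum, Complex.ofReal_mul, Complex.ofReal_natCast]
    rw [h2, ← h1]
    rfl

/-- **The upper bounds for the logarithms of integers.** -/
theorem upperBounds_logs {X Y : ℕ} (hX : 1 ≤ X) (hXY : X ≤ Y) :
    UpperBounds (⊥ : IntermediateField ℚ ℂ) (Nat.log 2 Y + 3) (logs X) (logs Y) := by
  have h := upperBounds_complex (fun p : Nat.Primes => (Real.log (p : ℕ) : ℂ))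
    Pool.Agent.W254.HP.log_prime_alg Pool.Agent.W254.HP.log_primes_indep (coe0 Y) (by
      intro c hc
      obtain ⟨e, -, rfl⟩ := Finset.mem_image.1 hc
      exact isAlgebraic_algebraMap (e : ℚ)) ⊥ (by
      intro c hc
      obtain ⟨e, -, rfl⟩ := Finset.mem_image.1 hc
      exact natCast_mem _ e) (logs X) (logs Y) (by
      rw [← Finset.card_pos, card_logs]; omega) (by
      intro z hz
      have hz' : z ∈ logs Y := hz.elim (fun h => logs_mono hXY h) id
      obtain ⟨a, ha, rfl⟩ := Finset.mem_image.1 hz'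
      rw [Finset.mem_Icc] at ha
      exact isComb_log ha.1 ha.2)
  rw [card_coe0] at h
  exact h

end Pool.Agent.TH910.LR
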