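import Pool.Agent.TH910.LR.Main

/-!
# Kernels spanned by rational vectors
-/

set_option autoImplicit false

namespace Pool.Agent.TH910.LR

open Module Finset Matrix

variable {κ E : Type*} [Field κ] [Field E] [Algebra κ E]

variable (κ) in
/-- the vectors of the kernel of `M` with coordinates in `κ` -/
def ratKer {m n : ℕ} (M : Matrix (Fin m) (Fin n) E) : Set (Fin n → E) :=
  {v | M *ᵥ v = 0 ∧ ∃ c : Fin n → κ, v = cv E c}

variable (κ) in
/-- the kernel of `M` is spanned by vectors with coordinates in `κ` -/
def KR {m n : ℕ} (M : Matrix (Fin m) (Fin n) E) : Prop :=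
  ∀ u : Fin n → E, M *ᵥ u = 0 → u ∈ Submodule.span E (ratKer κ M)

/-- decomposition of a vector over a small field -/
theorem exists_decomp {n : ℕ} (u : Fin n → E) : ∃ (d : ℕ) (x : Fin d → E)
    (P : Fin d → Fin n → κ), LinearIndependent κ x ∧ u = ∑ j, x j • cv E (P j) := by
  obtain ⟨d, x, P, -, hx, hu⟩ := exists_basis_rep (κ := κ) u
  refine ⟨d, x, P, hx, ?_⟩
  funext i
  rw [hu i, Finset.sum_apply]
  apply Finset.sum_congr rfl
  intro j _
  simp [cv, mul_comm]

/-- the row space is spanned by rational vectors -/
theorem KR_of_span {m n : ℕ} (M : Matrix (Fin m) (Fin n) E) {ι : Type*} (c : ι → Fin n → κ)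
    (h : Submodule.span E (Set.range M.row) = Submodule.span E (Set.range fun i => cv E (c i))) :
    KR κ M := by
  have hiff : ∀ v : Fin n → E, M *ᵥ v = 0 ↔ ∀ i, ∑ l, algebraMap κ E (c i l) * v l = 0 := by
    intro v
    constructor
    · intro hv i
      have h1 : cv E (c i) ∈ Submodule.span E (Set.range M.row) := by
        rw [h]; exact Submodule.subset_span ⟨i, rfl⟩
      refine Submodule.span_induction (p := fun z _ => ∑ l, z l * v l = 0) ?_ ?_ ?_ ?_ h1
      · rintro _ ⟨j, rfl⟩
        exact congrFun hv j
      · simp
      · intro a b _ _ ha hb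
        simp only [Pi.add_apply, add_mul, Finset.sum_add_distrib, ha, hb, add_zero]
      · intro a b _ hb
        simp only [Pi.smul_apply, smul_eq_mul, mul_assoc, ← Finset.mul_sum, hb, mul_zero]
    · intro hv
      funext j
      have h1 : M.row j ∈ Submodule.span E (Set.range fun i => cv E (c i)) := by
        rw [← h]; exact Submodule.subset_span ⟨j, rfl⟩
      change ∑ l, M.row j l * v l = 0
      refine Submodule.span_induction (p := fun z _ => ∑ l, z l * v l = 0) ?_ ?_ ?_ ?_ h1
      · rintro _ ⟨j, rfl⟩
        exact hv j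
      · simp
      · intro a b _ _ ha hb
        simp only [Pi.add_apply, add_mul, Finset.sum_add_distrib, ha, hb, add_zero]
      · intro a b _ hb
        simp only [Pi.smul_apply, smul_eq_mul, mul_assoc, ← Finset.mul_sum, hb, mul_zero]
  intro u hu
  obtain ⟨d, x, P, hx, hux⟩ := exists_decomp (κ := κ) u
  have hP : ∀ j, M *ᵥ cv E (P j) = 0 := by
    intro j
    rw [hiff]
    intro i
    have h1 := (hiff u).1 hu i
    have h2 : ∑ j, (∑ l, c i l * P j l) • x j = 0 := by
      rw [← h1, hux]
      simp only [Finset.sum_apply, Pi.smul_apply, smul_eq_mul, Finset.mul_sum]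
      rw [Finset.sum_comm]
      apply Finset.sum_congr rfl
      intro j _
      rw [Algebra.smul_def, map_sum, Finset.sum_mul]
      apply Finset.sum_congr rfl
      intro l _
      simp only [cv, map_mul]
      ring
    have h3 := Fintype.linearIndependent_iff.1 hx _ h2 j
    have h4 := congrArg (algebraMap κ E) h3
    rw [map_sum, map_zero] at h4
    simpa [cv, map_mul] using h4
  rw [hux]
  apply Submodule.sum_mem
  intro j _
  exact Submodule.smul_mem _ _ (Submodule.subset_span ⟨hP j, P j, rfl⟩)

/-- dropping a column -/
def dropCol {X : Type*} {m n : ℕ} (j : Fin (n + 1)) (M : Fin m → Fin (n + 1) → X) :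
    Fin m → Fin n → X := fun i l => M i (j.succAbove l)

/-- **If the kernel has dimension at least two, it is rational as soon as the kernels of all the
matrices with one column dropped are.** -/
theorem KR_of_drop {m n : ℕ} (M : Matrix (Fin m) (Fin (n + 1)) E)
    (h2 : M.rank + 2 ≤ n + 1)
    (h : ∀ j, KR κ (Matrix.of (dropCol j M))) : KR κ M := by
  classical
  -- the vectors with a zero coordinate
  have hzero : ∀ j (u : Fin (n + 1) → E), M *ᵥ u = 0 → u j = 0 →
      u ∈ Submodule.span E (ratKer κ M) := by
    intro j u hu huj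
    have hmul : ∀ v : Fin n → E, ∀ i, (M *ᵥ (j.insertNth (0 : E) v)) i =
        (Matrix.of (dropCol j M) *ᵥ v) i := by
      intro v i
      change ∑ l, M i l * (j.insertNth (0 : E) v : Fin (n + 1) → E) l = ∑ l, M i (j.succAbove l) * v l
      rw [Fin.sum_univ_succAbove _ j]
      simp
    have hu' : u = j.insertNth (0 : E) (fun l => u (j.succAbove l)) := by
      funext l
      refine Fin.succAboveCases j ?_ ?_ l
      · simp [huj]
      · intro i; simp
    have h3 : Matrix.of (dropCol j M) *ᵥ (fun l => u (j.succAbove l)) = 0 := by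
      funext i
      rw [← hmul, ← hu', hu]
    have h4 := h j _ h3
    rw [hu']
    refine Submodule.span_induction
      (p := fun (v : Fin n → E) _ => (j.insertNth (0 : E) v : Fin (n + 1) → E) ∈
        Submodule.span E (ratKer κ M)) ?_ ?_ ?_ ?_ h4
    · rintro v ⟨hv, c, rfl⟩
      apply Submodule.subset_span
      refine ⟨?_, j.insertNth (0 : κ) c, ?_⟩
      · funext i
        rw [hmul, hv]
      · funext l
        refine Fin.succAboveCases j ?_ ?_ l
        · simp [cv]
        · intro i; simp [cv]
    · have : (j.insertNth (0 : E) (0 : Fin n → E) : Fin (n + 1) → E) = 0 := by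
        funext l
        refine Fin.succAboveCases j ?_ ?_ l
        · simp
        · intro i; simp
      rw [this]
      exact Submodule.zero_mem _
    · intro a b _ _ ha hb
      have : (j.insertNth (0 : E) (a + b) : Fin (n + 1) → E) =
          (j.insertNth (0 : E) a : Fin (n + 1) → E) + (j.insertNth (0 : E) b : Fin (n + 1) → E) := by
        funext l
        refine Fin.succAboveCases j ?_ ?_ l
        · simp
        · intro i; simp
      rw [this]
      exact Submodule.add_mem _ ha hb
    · intro a b _ hb
      have : (j.insertNth (0 : E) (a • b) : Fin (n + 1) → E) =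
          a • (j.insertNth (0 : E) b : Fin (n + 1) → E) := by
        funext l
        refine Fin.succAboveCases j ?_ ?_ l
        · simp
        · intro i; simp
      rw [this]
      exact Submodule.smul_mem _ _ hb
  intro u hu
  by_cases hu0 : u = 0
  · rw [hu0]; exact Submodule.zero_mem _
  obtain ⟨i, hi⟩ : ∃ i, u i ≠ 0 := by
    by_contra hcon
    push Not at hcon
    exact hu0 (funext hcon)
  -- a second vector of the kernel
  obtain ⟨u', hu', hne⟩ : ∃ u' : Fin (n + 1) → E, M *ᵥ u' = 0 ∧ u' ∉ Submodule.span E {u} := by
    by_contra hcon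
    push Not at hcon
    have h3 : LinearMap.ker M.mulVecLin ≤ Submodule.span E {u} := by
      intro v hv
      exact hcon v (by simpa using hv)
    have h4 := Submodule.finrank_mono h3
    have h5 := finrank_span_le_card (R := E) ({u} : Set (Fin (n + 1) → E))
    have h6 := LinearMap.finrank_range_add_finrank_ker M.mulVecLin
    rw [Module.finrank_fintype_fun_eq_card, Fintype.card_fin] at h6
    have h7 : M.rank = finrank E (LinearMap.range M.mulVecLin) := rfl
    simp at h5
    omega
  let v : Fin (n + 1) → E := u' - (u' i / u i) • u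
  have hv : M *ᵥ v = 0 := by
    simp only [v, Matrix.mulVec_sub, Matrix.mulVec_smul, hu, hu', smul_zero, sub_zero]
  have hvi : v i = 0 := by
    simp only [v, Pi.sub_apply, Pi.smul_apply, smul_eq_mul]
    field_simp
    ring
  have hv0 : v ≠ 0 := by
    intro h0
    apply hne
    rw [Submodule.mem_span_singleton]
    exact ⟨u' i / u i, (sub_eq_zero.1 h0).symm⟩
  obtain ⟨j, hj⟩ : ∃ j, v j ≠ 0 := by
    by_contra hcon
    push Not at hcon
    exact hv0 (funext hcon)
  have hvR := hzero i v hv hvi
  have hw : u - (u j / v j) • v ∈ Submodule.span E (ratKer κ M) := by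
    apply hzero j
    · rw [Matrix.mulVec_sub, Matrix.mulVec_smul, hu, hv, smul_zero, sub_zero]
    · simp only [Pi.sub_apply, Pi.smul_apply, smul_eq_mul]
      field_simp
      ring
  have := Submodule.add_mem _ hw (Submodule.smul_mem _ (u j / v j) hvR)
  simpa using this

end Pool.Agent.TH910.LR
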