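import Pool.Agent.TH910.LR.Count

/-!
# Counting matrices of low rank: the main estimate
-/

set_option autoImplicit false

namespace Pool.Agent.TH910.LR

open Module Finset
open Pool.Agent.W254.PA (Hyp)

variable {κ E : Type*} [Field κ] [Field E] [Algebra κ E]

/-- the space spanned by the rational vectors `c i` and the rows with index in `I` -/
noncomputable def VV {B : Type*} (w : B → E) {k m n : ℕ} (c : Fin k → Fin n → κ)
    (I : Finset (Fin m)) (M : Fin m → Fin n → (B →₀ κ)) : Submodule E (Fin n → E) :=
  Submodule.span E (Set.range (fun i => cv E (c i)) ∪ (fun j => vec w (M j)) '' (I : Set (Fin m)))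

/-- the space spanned by all the rows -/
noncomputable def RS {B : Type*} (w : B → E) {m n : ℕ}
    (M : Fin m → Fin n → (B →₀ κ)) : Submodule E (Fin n → E) :=
  Submodule.span E (Set.range fun j => vec w (M j))

/-- **Parametrisation of the matrices of low rank.** -/
theorem exists_param [DecidableEq κ] {B : Type*} (w : B → E) (F : Finset κ) {k m n : ℕ}
    (M : Fin m → Fin n → (B →₀ κ)) (hM : finrank E (RS w M) ≤ k) :
    ∃ (c : Fin k → Fin n → κ) (I : Finset (Fin m)), (∀ i, c i ∈ insert 0 (TT F n)) ∧
      finrank κ (WT F (VV w c I M)) + I.card ≤ k ∧ (∀ j, vec w (M j) ∈ VV w c I M) ∧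
      VV w c I M = RS w M := by
  classical
  set V₀ := RS w M with hV₀
  obtain ⟨b, hbs, hbspan, hbli⟩ := exists_linearIndependent κ {c | c ∈ TT F n ∧ cv E c ∈ V₀}
  haveI : Finite b := hbli.finite
  haveI : Fintype b := Fintype.ofFinite b
  -- the number of elements of `b`
  have hcard : Fintype.card b = finrank κ (WT F V₀) := by
    have := finrank_span_eq_card hbli
    rw [← this, WT, ← hbspan, Subtype.range_coe]
  let U : Submodule E (Fin n → E) := Submodule.span E (Set.range fun x : b => cv E (x : Fin n → κ))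
  have hUV : U ≤ V₀ := by
    rw [Submodule.span_le]
    rintro _ ⟨x, rfl⟩
    exact (hbs x.2).2
  have hU : finrank E U = Fintype.card b := finrank_span_eq_card (li_cv _ hbli)
  -- independent rows modulo `U`
  obtain ⟨ι, a, hainj, haspan, hali⟩ :=
    exists_linearIndependent' E (fun j : Fin m => U.mkQ (vec w (M j)))
  haveI : Finite ι := Finite.of_injective a hainj
  haveI : Fintype ι := Fintype.ofFinite ι
  let I : Finset (Fin m) := Finset.univ.image a
  have hIcard : I.card = Fintype.card ι := by
    rw [Finset.card_image_of_injective _ hainj, Finset.card_univ]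
  have hspanv : Submodule.span E (Set.range fun j : Fin m => U.mkQ (vec w (M j))) =
      V₀.map U.mkQ := by
    rw [hV₀, RS, Submodule.map_span, ← Set.range_comp]
    rfl
  have hι : Fintype.card ι = finrank E (V₀.map U.mkQ) := by
    rw [← hspanv, ← haspan]
    exact (finrank_span_eq_card hali).symm
  have hdim : finrank E (V₀.map U.mkQ) + finrank E U = finrank E V₀ := by
    have h1 := LinearMap.finrank_range_add_finrank_ker (U.mkQ.domRestrict V₀)
    rw [LinearMap.range_domRestrict, LinearMap.ker_domRestrict, Submodule.ker_mkQ] at h1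
    rw [← h1]
    congr 1
    exact (Submodule.submoduleOfEquivOfLe hUV).symm.finrank_eq
  have hle : Fintype.card b + I.card ≤ k := by
    rw [hIcard, hι, ← hU]
    omega
  -- enumeration of `b`
  let e : b ≃ Fin (Fintype.card b) := Fintype.equivFin b
  let c : Fin k → Fin n → κ := fun i =>
    if h : (i : ℕ) < Fintype.card b then ((e.symm ⟨i, h⟩ : b) : Fin n → κ) else 0
  have hcmem : ∀ i, c i ∈ insert 0 (TT F n) := by
    intro i
    by_cases h : (i : ℕ) < Fintype.card b
    · simp only [c, h, dif_pos]
      exact Finset.mem_insert_of_mem (hbs (e.symm ⟨i, h⟩).2).1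
    · simp only [c, h, dif_neg, not_false_iff]
      exact Finset.mem_insert_self _ _
  have hcV : ∀ i, cv E (c i) ∈ V₀ := by
    intro i
    by_cases h : (i : ℕ) < Fintype.card b
    · simp only [c, h, dif_pos]
      exact (hbs (e.symm ⟨i, h⟩).2).2
    · simp only [c, h, dif_neg, not_false_iff]
      convert V₀.zero_mem using 1
      funext i; simp [cv]
  have hbc : ∀ x : b, ∃ i, c i = x := by
    intro x
    have hx : ((e x : Fin (Fintype.card b)) : ℕ) < Fintype.card b := (e x).2
    refine ⟨⟨e x, by omega⟩, ?_⟩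
    simp only [c, hx, dif_pos]
    simp
  have hVV : VV w c I M = V₀ := by
    apply le_antisymm
    · rw [VV, Submodule.span_le]
      rintro v (⟨i, rfl⟩ | ⟨j, -, rfl⟩)
      · exact hcV i
      · exact Submodule.subset_span ⟨j, rfl⟩
    · rw [hV₀, RS, Submodule.span_le]
      rintro _ ⟨j, rfl⟩
      have hUle : U ≤ VV w c I M := by
        rw [Submodule.span_le]
        rintro _ ⟨x, rfl⟩
        obtain ⟨i, hi⟩ := hbc x
        apply Submodule.subset_span
        left
        exact ⟨i, by simp only [hi]⟩
      have h1 : U.mkQ (vec w (M j)) ∈ (Submodule.span E (Set.range fun t : ι => vec w (M (a t)))).map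
          U.mkQ := by
        rw [Submodule.map_span, ← Set.range_comp]
        have h2 : U.mkQ (vec w (M j)) ∈
            Submodule.span E (Set.range fun j : Fin m => U.mkQ (vec w (M j))) :=
          Submodule.subset_span ⟨j, rfl⟩
        rw [← haspan] at h2
        exact h2
      obtain ⟨z, hz, hzj⟩ := h1
      have h3 : vec w (M j) - z ∈ U := by
        rw [← Submodule.Quotient.mk_eq_zero, Submodule.Quotient.mk_sub, sub_eq_zero]
        exact hzj.symm
      have hz' : z ∈ VV w c I M := by
        refine (Submodule.span_le.2 ?_) hz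
        rintro _ ⟨t, rfl⟩
        apply Submodule.subset_span
        right
        exact ⟨a t, by simp [I], rfl⟩
      have := (VV w c I M).add_mem (hUle h3) hz'
      simpa using this
  refine ⟨c, I, hcmem, ?_, ?_, hVV⟩
  · rw [hVV, ← hcard]
    exact hle
  · intro j
    rw [hVV]
    exact Submodule.subset_span ⟨j, rfl⟩

theorem VV_congr {B : Type*} (w : B → E) {k m n : ℕ} (c : Fin k → Fin n → κ)
    (I : Finset (Fin m)) (M M' : Fin m → Fin n → (B →₀ κ)) (h : ∀ j ∈ I, M j = M' j) :
    VV w c I M = VV w c I M' := by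
  rw [VV, VV]
  congr 2
  apply Set.image_congr
  intro j hj
  rw [h j hj]

theorem exp_le (k m n t : ℕ) (ht : t ≤ k) : (k - t) * (m - t) + n * t ≤ k * max m n := by
  calc (k - t) * (m - t) + n * t ≤ (k - t) * max m n + max m n * t :=
        Nat.add_le_add (Nat.mul_le_mul_left _ (by omega)) (Nat.mul_le_mul_right _ (le_max_right _ _))
    _ = ((k - t) + t) * max m n := by ring
    _ = k * max m n := by rw [Nat.sub_add_cancel ht]

/-- matrices with given parameters -/
theorem card_param [Countable κ] [Uncountable E] [DecidableEq κ] {L : Submodule κ E} (hL : Hyp L)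
    {B : Type*} [DecidableEq B] (w : B → E) (hw : LinearIndependent κ w) (hwL : ∀ b, w b ∈ L)
    {k m n : ℕ} (F : Finset κ) (A : Fin m → Finset (B →₀ κ)) (hA : ∀ j, (A j).Nonempty)
    (hAF : ∀ j, ∀ α ∈ A j, ∀ b, α b ∈ F) (c : Fin k → Fin n → κ) (I : Finset (Fin m))
    (s : Finset (Fin m → Fin n → (B →₀ κ)))
    (hs : ∀ M ∈ s, (∀ j i, M j i ∈ A j) ∧ finrank κ (WT F (VV w c I M)) + I.card ≤ k ∧
      ∀ j, vec w (M j) ∈ VV w c I M) :
    s.card ≤ ((F.card + 1) ^ (n * (n * n))) ^ m *
      ∏ j, (if j ∈ I then (A j).card ^ n else (A j).card ^ (k - I.card)) := by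
  classical
  obtain ⟨Q, hQ⟩ : ∃ Q, Q = (F.card + 1) ^ (n * (n * n)) := ⟨_, rfl⟩
  have hQ1 : 1 ≤ Q := by rw [hQ]; exact Nat.one_le_pow _ _ (by omega)
  rw [← hQ]
  have h1 := Finset.card_le_mul_card_image_of_maps_to (s := s)
    (t := Fintype.piFinset fun j : I => Fintype.piFinset fun _ : Fin n => A j)
    (f := fun M => fun (j : I) => M j) (by
      intro M hM
      simp only [Fintype.mem_piFinset]
      intro j i
      exact (hs M hM).1 _ _)
    (Q ^ m * ∏ j, (if j ∈ I then 1 else (A j).card ^ (k - I.card))) (by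
      intro ρ _
      rcases (s.filter fun M => (fun (j : I) => M j) = ρ).eq_empty_or_nonempty with he | ⟨M₀, hM₀⟩
      · rw [he]; simp
      · rw [Finset.mem_filter] at hM₀
        let SV : Fin m → Finset (Fin n → (B →₀ κ)) := fun j =>
          (Fintype.piFinset fun _ : Fin n => A j).filter fun r => vec w r ∈ VV w c I M₀
        have hSV : ∀ j, (SV j).card ≤ (A j).card ^ (k - I.card) * Q := by
          intro j
          refine (card_points hL w hw hwL F (A j) (hA j) (hAF j) (VV w c I M₀) (SV j) ?_).trans ?_
          · intro r hr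
            rw [Finset.mem_filter, Fintype.mem_piFinset] at hr
            exact hr
          · rw [hQ]
            apply Nat.mul_le_mul_right
            apply Nat.pow_le_pow_right (hA j).card_pos
            have := (hs M₀ hM₀.1).2.1
            omega
        have h2 : (s.filter fun M => (fun (j : I) => M j) = ρ) ⊆
            Fintype.piFinset fun j : Fin m => if j ∈ I then {M₀ j} else SV j := by
          intro M hM
          rw [Finset.mem_filter] at hM
          have hagree : ∀ j ∈ I, M j = M₀ j := fun j hj =>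
            congrFun (hM.2.trans hM₀.2.symm) ⟨j, hj⟩
          rw [Fintype.mem_piFinset]
          intro j
          by_cases hj : j ∈ I
          · rw [if_pos hj, Finset.mem_singleton]
            exact hagree j hj
          · rw [if_neg hj, Finset.mem_filter, Fintype.mem_piFinset]
            refine ⟨fun i => (hs M hM.1).1 j i, ?_⟩
            rw [← VV_congr w c I M M₀ hagree]
            exact (hs M hM.1).2.2 j
        refine (Finset.card_le_card h2).trans ?_
        rw [Fintype.card_piFinset]
        calc ∏ j : Fin m, (if j ∈ I then ({M₀ j} : Finset _) else SV j).card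
            ≤ ∏ j : Fin m, (Q * (if j ∈ I then 1 else (A j).card ^ (k - I.card))) := by
              apply Finset.prod_le_prod' 
              intro j _
              by_cases hj : j ∈ I
              · rw [if_pos hj, if_pos hj, Finset.card_singleton]; omega
              · rw [if_neg hj, if_neg hj, mul_comm]; exact hSV j
          _ = Q ^ m * ∏ j, (if j ∈ I then 1 else (A j).card ^ (k - I.card)) := by
              rw [Finset.prod_mul_distrib, Finset.prod_const, Finset.card_univ, Fintype.card_fin])
  refine h1.trans (le_of_eq ?_)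
  rw [Fintype.card_piFinset]
  simp only [Fintype.card_piFinset, Finset.prod_const, Finset.card_univ, Fintype.card_fin]
  rw [mul_assoc]
  congr 1
  rw [Finset.prod_coe_sort I (fun j => (A j).card ^ n)]
  rw [Finset.prod_ite, Finset.prod_ite, Finset.prod_const_one, one_mul, mul_comm]
  congr 1
  rw [Finset.filter_mem_eq_inter, Finset.univ_inter]

/-- **Main estimate**, in terms of coefficient vectors. -/
theorem main_count' [Countable κ] [Uncountable E] [DecidableEq κ] {L : Submodule κ E} (hL : Hyp L)
    {B : Type*} [DecidableEq B] (w : B → E) (hw : LinearIndependent κ w) (hwL : ∀ b, w b ∈ L)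
    {k m n : ℕ} (F : Finset κ) (A : Fin m → Finset (B →₀ κ)) (hA : ∀ j, (A j).Nonempty)
    (hAF : ∀ j, ∀ α ∈ A j, ∀ b, α b ∈ F) (X : ℕ)
    (s : Finset (Fin m → Fin n → (B →₀ κ)))
    (hs : ∀ M ∈ s, (∀ j i, M j i ∈ A j) ∧ ∃ (c : Fin k → Fin n → κ) (I : Finset (Fin m)),
      (∀ i, c i ∈ insert 0 (TT F n)) ∧ finrank κ (WT F (VV w c I M)) + I.card ≤ k ∧
      (∀ j, vec w (M j) ∈ VV w c I M) ∧
      ∏ j, (if j ∈ I then (A j).card ^ n else (A j).card ^ (k - I.card)) ≤ X) :
    s.card ≤ (F.card + 2) ^ (k * (2 * n + 1) + m + n * (n * n) * m) * X := by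
  classical
  choose! c I hc hI hrow hexp using fun M (hM : M ∈ s) => (hs M hM).2
  let T : Finset ((Fin k → Fin n → κ) × Finset (Fin m)) :=
    (Fintype.piFinset fun _ : Fin k => insert 0 (TT F n)) ×ˢ (Finset.univ)
  have h1 := Finset.card_le_mul_card_image_of_maps_to (s := s) (t := T)
    (f := fun M => (c M, I M)) (by
      intro M hM
      rw [Finset.mem_product, Fintype.mem_piFinset]
      exact ⟨hc M hM, Finset.mem_univ _⟩)
    (((F.card + 1) ^ (n * (n * n))) ^ m * X) (by
      rintro ⟨c₀, I₀⟩ _
      rcases (s.filter fun M => (c M, I M) = (c₀, I₀)).eq_empty_or_nonempty with he | ⟨M₁, hM₁⟩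
      · rw [he]; simp
      · have hexp₀ : ∏ j, (if j ∈ I₀ then (A j).card ^ n else (A j).card ^ (k - I₀.card)) ≤ X := by
          rw [Finset.mem_filter] at hM₁
          have e2 : I M₁ = I₀ := congrArg Prod.snd hM₁.2
          rw [← e2]
          exact hexp M₁ hM₁.1
        refine (card_param (k := k) hL w hw hwL F A hA hAF c₀ I₀ _ ?_).trans
          (Nat.mul_le_mul_left _ hexp₀)
        intro M hM
        rw [Finset.mem_filter] at hM
        have e1 : c M = c₀ := congrArg Prod.fst hM.2
        have e2 : I M = I₀ := congrArg Prod.snd hM.2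
        rw [← e1, ← e2]
        exact ⟨(hs M hM.1).1, hI M hM.1, hrow M hM.1⟩)
  refine h1.trans ?_
  have hT : T.card ≤ (F.card + 2) ^ (k * (2 * n + 1) + m) := by
    rw [Finset.card_product, Fintype.card_piFinset, Finset.prod_const, Finset.card_univ,
      Finset.card_univ, Fintype.card_finset, Fintype.card_fin, Fintype.card_fin, pow_add]
    apply Nat.mul_le_mul
    · rw [mul_comm k, pow_mul]
      apply Nat.pow_le_pow_left
      refine (Finset.card_insert_le _ _).trans ?_
      have h2 : (TT F n).card ≤ ((F.card + 2) * (F.card + 2)) ^ n := by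
        rw [TT, Fintype.card_piFinset, Finset.prod_const, Finset.card_univ, Fintype.card_fin]
        apply Nat.pow_le_pow_left
        refine (card_dif_le F).trans (Nat.mul_le_mul (by omega) (by omega))
      have h3 : ((F.card + 2) * (F.card + 2)) ^ n = (F.card + 2) ^ (2 * n) := by
        rw [← pow_two, ← pow_mul]
      rw [h3] at h2
      have h4 : 1 ≤ (F.card + 2) ^ (2 * n) := Nat.one_le_pow _ _ (by omega)
      calc (TT F n).card + 1 ≤ (F.card + 2) ^ (2 * n) + (F.card + 2) ^ (2 * n) := by omega
        _ = 2 * (F.card + 2) ^ (2 * n) := by ring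
        _ ≤ (F.card + 2) * (F.card + 2) ^ (2 * n) := Nat.mul_le_mul_right _ (by omega)
        _ = (F.card + 2) ^ (2 * n + 1) := by ring
    · exact Nat.pow_le_pow_left (by omega) _
  calc ((F.card + 1) ^ (n * (n * n))) ^ m * X * T.card
      ≤ ((F.card + 2) ^ (n * (n * n))) ^ m * X *
        (F.card + 2) ^ (k * (2 * n + 1) + m) := by
        apply Nat.mul_le_mul _ hT
        apply Nat.mul_le_mul_right
        exact Nat.pow_le_pow_left (Nat.pow_le_pow_left (by omega) _) _
    _ = (F.card + 2) ^ (k * (2 * n + 1) + m + n * (n * n) * m) * X := by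
        rw [← pow_mul]
        ring

/-- The case of one set. -/
theorem main_count [Countable κ] [Uncountable E] [DecidableEq κ] {L : Submodule κ E} (hL : Hyp L)
    {B : Type*} [DecidableEq B] (w : B → E) (hw : LinearIndependent κ w) (hwL : ∀ b, w b ∈ L)
    {k m n : ℕ} (F : Finset κ) (A : Finset (B →₀ κ)) (hA : A.Nonempty)
    (hAF : ∀ α ∈ A, ∀ b, α b ∈ F) (e : ℕ)
    (s : Finset (Fin m → Fin n → (B →₀ κ)))
    (hs : ∀ M ∈ s, (∀ j i, M j i ∈ A) ∧ ∃ (c : Fin k → Fin n → κ) (I : Finset (Fin m)),
      (∀ i, c i ∈ insert 0 (TT F n)) ∧ finrank κ (WT F (VV w c I M)) + I.card ≤ k ∧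
      (∀ j, vec w (M j) ∈ VV w c I M) ∧ (k - I.card) * (m - I.card) + n * I.card ≤ e) :
    s.card ≤ (F.card + 2) ^ (k * (2 * n + 1) + m + n * (n * n) * m) * A.card ^ e := by
  classical
  apply main_count' (k := k) hL w hw hwL F (fun _ => A) (fun _ => hA) (fun _ => hAF) (A.card ^ e) s
  intro M hM
  obtain ⟨h1, c, I, h2, h3, h4, h5⟩ := hs M hM
  refine ⟨h1, c, I, h2, h3, h4, ?_⟩
  rw [Finset.prod_ite, Finset.prod_const, Finset.prod_const, ← pow_mul, ← pow_mul, ← pow_add]
  apply Nat.pow_le_pow_right hA.card_pos
  have e1 : (Finset.univ.filter fun j => j ∈ I).card = I.card := by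
    rw [Finset.filter_mem_eq_inter, Finset.univ_inter]
  have e2 : (Finset.univ.filter fun j => j ∉ I).card = m - I.card := by
    rw [Finset.filter_not, Finset.card_sdiff_of_subset (Finset.filter_subset _ _), e1]
    simp
  rw [e1, e2]
  omega

end Pool.Agent.TH910.LR
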