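import Pool.Agent.TH910.LR.Bad

/-!
# Square matrices in which one row comes from a larger set
-/

set_option autoImplicit false

namespace Pool.Agent.TH910.LR

open Module Finset Matrix
open Pool.Agent.W254.PA (Hyp)

variable {κ E : Type*} [Field κ] [Field E] [Algebra κ E]

variable (κ) in
/-- some nonzero vector with coordinates in `κ` lies in the kernel -/
def HasRat {m n : ℕ} (M : Matrix (Fin m) (Fin n) E) : Prop :=
  ∃ c : Fin n → κ, c ≠ 0 ∧ M *ᵥ cv E c = 0

theorem cv_zero {n : ℕ} : cv E (0 : Fin n → κ) = 0 := by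
  funext i
  simp [cv]

/-- a nonzero kernel spanned by rational vectors contains a nonzero one -/
theorem hasRat_of_KR {m n : ℕ} (M : Matrix (Fin m) (Fin n) E) (h : KR κ M) (hr : M.rank < n) :
    HasRat κ M := by
  by_contra hcon
  have hz : ∀ c : Fin n → κ, M *ᵥ cv E c = 0 → c = 0 := by
    intro c hc
    by_contra hc0
    exact hcon ⟨c, hc0, hc⟩
  have h1 : ratKer κ M ⊆ {0} := by
    rintro v ⟨hv, c, rfl⟩
    rw [hz c hv, cv_zero]
    rfl
  have h2 : LinearMap.ker M.mulVecLin = ⊥ := by
    rw [eq_bot_iff]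
    intro v hv
    have h3 := h v (by simpa using hv)
    have h4 := Submodule.span_mono (R := E) h1 h3
    simpa using h4
  have h6 := LinearMap.finrank_range_add_finrank_ker M.mulVecLin
  rw [Module.finrank_fintype_fun_eq_card, Fintype.card_fin, h2, finrank_bot] at h6
  have h7 : M.rank = finrank E (LinearMap.range M.mulVecLin) := rfl
  omega

/-- the matrix without its last row -/
def initR {X : Type*} {m n : ℕ} (M : Fin (m + 1) → Fin n → X) : Fin m → Fin n → X :=
  fun i => M i.castSucc

section counting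

variable [Countable κ] [Uncountable E] [DecidableEq κ] {L : Submodule κ E} (hL : Hyp L)
  {B : Type*} [DecidableEq B] (w : B → E) (hw : LinearIndependent κ w) (hwL : ∀ b, w b ∈ L)
  (F : Finset κ) (A A' : Finset (B →₀ κ)) (hA : A.Nonempty) (hAA : A.card ≤ A'.card)
  (hAF : ∀ α ∈ A, ∀ b, α b ∈ F) (hAF' : ∀ α ∈ A', ∀ b, α b ∈ F)

include hL hw hwL hA hAA hAF hAF'

/-- the last row depends on the others -/
theorem row_dep {n : ℕ} (s : Finset (Fin (n + 1) → Fin (n + 1) → (B →₀ κ)))
    (hs : ∀ M ∈ s, (∀ (i : Fin n) l, M i.castSucc l ∈ A) ∧ (∀ l, M (Fin.last n) l ∈ A') ∧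
      ¬ KR κ (EV w M) ∧ vec w (M (Fin.last n)) ∈ RS w (initR M)) :
    s.card ≤ (F.card + 2) ^ (n * (2 * (n + 1) + 1) + (n + 1) +
      (n + 1) * ((n + 1) * (n + 1)) * (n + 1)) *
      (A.card ^ (n * n + 1) * A'.card ^ (n - 1)) := by
  classical
  have hA' : A'.Nonempty := Finset.card_pos.1 (hA.card_pos.trans_le hAA)
  let AA : Fin (n + 1) → Finset (B →₀ κ) := fun j => if j = Fin.last n then A' else A
  have hAl : AA (Fin.last n) = A' := by simp [AA]
  have hAc : ∀ i : Fin n, AA i.castSucc = A := by
    intro i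
    simp only [AA]
    rw [if_neg (Fin.castSucc_lt_last i).ne]
  apply main_count' (k := n) hL w hw hwL F AA (by
    intro j
    refine Fin.lastCases ?_ ?_ j
    · rw [hAl]; exact hA'
    · intro i; rw [hAc]; exact hA) (by
    intro j
    refine Fin.lastCases ?_ ?_ j
    · rw [hAl]; exact hAF'
    · intro i; rw [hAc]; exact hAF) (A.card ^ (n * n + 1) * A'.card ^ (n - 1)) s
  intro M hM
  obtain ⟨h1, h2, h3, h4⟩ := hs M hM
  refine ⟨?_, ?_⟩
  · intro j l
    revert j
    refine Fin.lastCases ?_ ?_
    · rw [hAl]; exact h2 l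
    · intro i; rw [hAc]; exact h1 i l
  -- parameters of the matrix without the last row
  have hRS : RS w M = RS w (initR M) := by
    apply le_antisymm
    · rw [RS, Submodule.span_le]
      rintro _ ⟨j, rfl⟩
      revert j
      refine Fin.lastCases ?_ ?_
      · exact h4
      · intro i
        exact Submodule.subset_span ⟨i, rfl⟩
    · rw [RS, RS]
      apply Submodule.span_mono
      rintro _ ⟨i, rfl⟩
      exact ⟨i.castSucc, rfl⟩
  have hrk : finrank E (RS w (initR M)) ≤ n := by
    rw [← rank_EV]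
    exact (Matrix.rank_le_card_height _).trans (by simp)
  obtain ⟨c, J, hc, hJ, hrow, hVV⟩ := exists_param (k := n) w F (initR M) hrk
  let I : Finset (Fin (n + 1)) := J.map Fin.castSuccEmb
  have hIcard : I.card = J.card := Finset.card_map _
  have hVV' : VV w c I M = VV w c J (initR M) := by
    rw [VV, VV]
    congr 2
    ext v
    constructor
    · rintro ⟨j, hj, rfl⟩
      simp only [I, Finset.coe_map, Set.mem_image, Finset.mem_coe] at hj
      obtain ⟨i, hi, rfl⟩ := hj
      exact ⟨i, hi, rfl⟩
    · rintro ⟨i, hi, rfl⟩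
      exact ⟨i.castSucc, by simpa [I] using hi, rfl⟩
  have hVM : VV w c I M = RS w M := by rw [hVV', hVV, hRS]
  have hI1 : 1 ≤ I.card := I_ne w M h3 c I hVM
  refine ⟨c, I, hc, ?_, ?_, ?_⟩
  · rw [hVV', hIcard]; exact hJ
  · intro j
    rw [hVM]
    exact Submodule.subset_span ⟨j, rfl⟩
  · have hJn : J.card ≤ n := by simpa using Finset.card_le_univ J
    have hlast : Fin.last n ∉ I := by
      intro h
      simp only [I, Finset.mem_map, Fin.castSuccEmb_apply] at h
      obtain ⟨i, -, hi⟩ := h
      exact (Fin.castSucc_lt_last i).ne hi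
    have hmem : ∀ i : Fin n, i.castSucc ∈ I ↔ i ∈ J := by
      intro i
      simp [I]
    rw [Fin.prod_univ_castSucc, if_neg hlast, hAl]
    simp only [hmem, hAc]
    rw [Finset.prod_ite, Finset.prod_const, Finset.prod_const, ← pow_mul, ← pow_mul, ← pow_add]
    have e1 : (Finset.univ.filter fun j => j ∈ J).card = J.card := by
      rw [Finset.filter_mem_eq_inter, Finset.univ_inter]
    have e2 : (Finset.univ.filter fun j => j ∉ J).card = n - J.card := by
      rw [Finset.filter_not, Finset.card_sdiff_of_subset (Finset.filter_subset _ _), e1]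
      simp
    rw [e1, e2, hIcard]
    rw [hIcard] at hI1
    obtain ⟨t, ht⟩ : ∃ t, t = J.card := ⟨_, rfl⟩
    rw [← ht] at hI1 hJn ⊢
    calc A.card ^ ((n + 1) * t + (n - t) * (n - t)) * A'.card ^ (n - t)
        ≤ A.card ^ (n * n + 1 + (t - 1)) * A'.card ^ (n - t) := by
          apply Nat.mul_le_mul_right
          apply Nat.pow_le_pow_right hA.card_pos
          zify [hJn, hI1]
          have a1 : (0 : ℤ) ≤ (t : ℤ) := by positivity
          have a2 : (0 : ℤ) ≤ (n : ℤ) - t := by
            have : (t : ℤ) ≤ n := by exact_mod_cast hJn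
            linarith
          nlinarith [mul_nonneg a1 a2]
      _ = A.card ^ (n * n + 1) * (A.card ^ (t - 1) * A'.card ^ (n - t)) := by
          rw [pow_add]; ring
      _ ≤ A.card ^ (n * n + 1) * (A'.card ^ (t - 1) * A'.card ^ (n - t)) := by
          apply Nat.mul_le_mul_left
          apply Nat.mul_le_mul_right
          exact Nat.pow_le_pow_left hAA _
      _ = A.card ^ (n * n + 1) * A'.card ^ (n - 1) := by
          rw [← pow_add]
          congr 2
          omega

omit hAA hAF' in
/-- the last row is independent of the others -/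
theorem row_indep {n : ℕ} (s : Finset (Fin (n + 1) → Fin (n + 1) → (B →₀ κ)))
    (hs : ∀ M ∈ s, (∀ (i : Fin n) l, M i.castSucc l ∈ A) ∧ (∀ l, M (Fin.last n) l ∈ A') ∧
      finrank E (RS w M) ≤ n ∧ ¬ HasRat κ (EV w (Function.swap M)) ∧
      vec w (M (Fin.last n)) ∉ RS w (initR M)) :
    s.card ≤ (n - 1) * ((F.card + 2) ^ (n * (2 * n + 1) + (n + 1) + n * (n * n) * (n + 1)) *
      (A.card ^ (n * (n - 1)) * A'.card ^ (n + 1))) := by
  classical
  -- properties of the matrix without the last row
  have hprop : ∀ M ∈ s, finrank E (RS w (Function.swap (initR M))) ≤ n - 1 ∧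
      ¬ KR κ (EV w (Function.swap (initR M))) := by
    intro M hM
    obtain ⟨h1, h2, h3, h4, h5⟩ := hs M hM
    have hle : RS w (initR M) ≤ RS w M := by
      rw [RS, RS]
      apply Submodule.span_mono
      rintro _ ⟨i, rfl⟩
      exact ⟨i.castSucc, rfl⟩
    have hlt : RS w (initR M) < RS w M := by
      refine lt_of_le_of_ne hle ?_
      intro heq
      apply h5
      rw [heq]
      exact Submodule.subset_span ⟨Fin.last n, rfl⟩
    have hfr := Submodule.finrank_lt_finrank_of_lt hlt
    have hsw := finrank_swap w (initR M)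
    refine ⟨by omega, ?_⟩
    intro hKR
    have hrank : (EV w (Function.swap (initR M))).rank < n := by
      rw [rank_EV, hsw]
      omega
    obtain ⟨c, hc0, hc⟩ := hasRat_of_KR _ hKR hrank
    apply h4
    refine ⟨Fin.snoc (α := fun _ => κ) c 0, ?_, ?_⟩
    · intro h0
      apply hc0
      funext i
      have := congrFun h0 i.castSucc
      simpa using this
    · funext l
      have h6 := congrFun hc l
      change ∑ i, EV w (Function.swap M) l i * cv E (Fin.snoc (α := fun _ => κ) c 0) i = 0
      rw [Fin.sum_univ_castSucc]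
      have e1 : cv E (Fin.snoc (α := fun _ => κ) c 0) (Fin.last n) = 0 := by simp [cv]
      rw [e1, mul_zero, add_zero]
      refine Eq.trans ?_ h6
      change _ = ∑ i, EV w (Function.swap (initR M)) l i * cv E c i
      apply Finset.sum_congr rfl
      intro i _
      have e2 : cv E (Fin.snoc (α := fun _ => κ) c 0) i.castSucc = cv E c i := by simp [cv]
      rw [e2]
      rfl
  rcases Nat.lt_or_ge n 2 with hn | hn
  · -- no such matrices
    have hemp : s = ∅ := by
      rw [Finset.eq_empty_iff_forall_notMem]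
      intro M hM
      obtain ⟨h1, h2⟩ := hprop M hM
      have h0 : finrank E (RS w (Function.swap (initR M))) ≤ 0 := by omega
      obtain ⟨c, I, -, h3, -, h4⟩ := exists_param (k := 0) w F _ h0
      have := I_ne w _ h2 c I h4
      omega
    rw [hemp]
    simp
  · have h1 := tall_count (k := n - 1) hL w hw hwL F A hA hAF (show n < n + 1 by omega)
      (s.image fun M => Function.swap (initR M)) (by
        intro ρ hρ
        obtain ⟨M, hM, rfl⟩ := Finset.mem_image.1 hρ
        exact ⟨fun l i => (hs M hM).1 i l, hprop M hM⟩)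
    have h2 : s.card ≤ ((s.image fun M => Function.swap (initR M)) ×ˢ
        (Fintype.piFinset fun _ : Fin (n + 1) => A')).card := by
      refine Finset.card_le_card_of_injOn
        (fun M => (Function.swap (initR M), M (Fin.last n))) ?_ ?_
      · intro M hM
        rw [Finset.mem_coe, Finset.mem_product, Fintype.mem_piFinset]
        exact ⟨Finset.mem_image_of_mem _ hM, (hs M hM).2.1⟩
      · intro M hM M' hM' hMM
        simp only [Prod.mk.injEq] at hMM
        funext i
        revert i
        refine Fin.lastCases ?_ ?_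
        · exact hMM.2
        · intro i
          funext l
          exact congrFun (congrFun hMM.1 l) i
    rw [Finset.card_product, Fintype.card_piFinset, Finset.prod_const, Finset.card_univ,
      Fintype.card_fin] at h2
    obtain ⟨T, hT⟩ : ∃ T, T = (s.image fun M => Function.swap (initR M)).card := ⟨_, rfl⟩
    rw [← hT] at h1 h2
    have e1 : n + 1 - n + (n - 1 - 1) = n - 1 := by omega
    have e2 : (n - 1) * (n + 1) = n * (n - 1) + (n - 1) := by
      obtain ⟨m, rfl⟩ := Nat.exists_eq_add_of_le' (show 1 ≤ n by omega)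
      simp only [Nat.add_sub_cancel]
      ring
    have e3 : (F.card + 2) ^ ((n - 1) * (2 * n + 1) + (n + 1) + n * (n * n) * (n + 1)) *
        A.card ^ ((n - 1) * (n + 1)) =
        ((F.card + 2) ^ ((n - 1) * (2 * n + 1) + (n + 1) + n * (n * n) * (n + 1)) *
          A.card ^ (n * (n - 1))) * A.card ^ (n - 1) := by
      rw [e2, pow_add (A.card)]
      exact (mul_assoc _ _ _).symm
    rw [e1, e3] at h1
    have h3 := Nat.le_of_mul_le_mul_right h1 (Nat.pow_pos hA.card_pos)
    have hn1 : 1 ≤ n - 1 := by omega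
    calc s.card ≤ T * A'.card ^ (n + 1) := h2
      _ ≤ ((F.card + 2) ^ ((n - 1) * (2 * n + 1) + (n + 1) + n * (n * n) * (n + 1)) *
          A.card ^ (n * (n - 1))) * A'.card ^ (n + 1) := Nat.mul_le_mul_right _ h3
      _ ≤ ((F.card + 2) ^ (n * (2 * n + 1) + (n + 1) + n * (n * n) * (n + 1)) *
          A.card ^ (n * (n - 1))) * A'.card ^ (n + 1) := by
          apply Nat.mul_le_mul_right
          apply Nat.mul_le_mul_right
          apply Nat.pow_le_pow_right (by omega)
          have : (n - 1) * (2 * n + 1) ≤ n * (2 * n + 1) := Nat.mul_le_mul_right _ (by omega)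
          omega
      _ = 1 * ((F.card + 2) ^ (n * (2 * n + 1) + (n + 1) + n * (n * n) * (n + 1)) *
          (A.card ^ (n * (n - 1)) * A'.card ^ (n + 1))) := by ring
      _ ≤ _ := Nat.mul_le_mul_right _ hn1

/-- **One row from a larger set.** -/
theorem row_count {n : ℕ} (s : Finset (Fin (n + 1) → Fin (n + 1) → (B →₀ κ)))
    (hs : ∀ M ∈ s, (∀ (i : Fin n) l, M i.castSucc l ∈ A) ∧ (∀ l, M (Fin.last n) l ∈ A') ∧
      finrank E (RS w M) ≤ n ∧ ¬ HasRat κ (EV w M) ∧ ¬ HasRat κ (EV w (Function.swap M))) :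
    s.card ≤ (F.card + 2) ^ (3 * (n + 1) ^ 4 + 4 * (n + 1) ^ 2 + 4 * (n + 1)) *
      (A.card ^ (n * n + 1) * A'.card ^ (n - 1) +
        (n - 1) * (A.card ^ (n * (n - 1)) * A'.card ^ (n + 1))) := by
  classical
  have h1 := row_dep hL w hw hwL F A A' hA hAA hAF hAF'
    (s.filter fun M => vec w (M (Fin.last n)) ∈ RS w (initR M)) (by
      intro M hM
      rw [Finset.mem_filter] at hM
      obtain ⟨h1, h2, h3, h4, h5⟩ := hs M hM.1
      refine ⟨h1, h2, ?_, hM.2⟩
      intro hKR
      apply h4
      apply hasRat_of_KR _ hKR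
      rw [rank_EV]
      omega)
  have h2 := row_indep hL w hw hwL F A A' hA hAF
    (s.filter fun M => ¬ vec w (M (Fin.last n)) ∈ RS w (initR M)) (by
      intro M hM
      rw [Finset.mem_filter] at hM
      obtain ⟨h1, h2, h3, h4, h5⟩ := hs M hM.1
      exact ⟨h1, h2, h3, h5, hM.2⟩)
  rw [← Finset.card_filter_add_card_filter_not (s := s)
    (fun M => vec w (M (Fin.last n)) ∈ RS w (initR M)), mul_add]
  obtain ⟨N, hN⟩ : ∃ N, N = n + 1 := ⟨_, rfl⟩
  have hb : 1 ≤ F.card + 2 := by omega
  have e3 : (n + 1) * ((n + 1) * (n + 1)) * (n + 1) = (n + 1) ^ 4 := by ring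
  have e4 : n * (2 * (n + 1) + 1) ≤ 3 * (n + 1) ^ 2 := by nlinarith
  have e5 : n * (n * n) * (n + 1) ≤ (n + 1) ^ 4 := by
    calc n * (n * n) * (n + 1) ≤ (n + 1) * ((n + 1) * (n + 1)) * (n + 1) := by gcongr <;> omega
      _ = (n + 1) ^ 4 := by ring
  have e6 : n * (2 * n + 1) ≤ 3 * (n + 1) ^ 2 := by nlinarith
  apply Nat.add_le_add
  · refine h1.trans (Nat.mul_le_mul_right _ (Nat.pow_le_pow_right hb ?_))
    rw [e3]
    omega
  · refine h2.trans ?_
    calc (n - 1) * ((F.card + 2) ^ (n * (2 * n + 1) + (n + 1) + n * (n * n) * (n + 1)) *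
        (A.card ^ (n * (n - 1)) * A'.card ^ (n + 1)))
        = (F.card + 2) ^ (n * (2 * n + 1) + (n + 1) + n * (n * n) * (n + 1)) *
        ((n - 1) * (A.card ^ (n * (n - 1)) * A'.card ^ (n + 1))) := by ring
      _ ≤ _ := by
        apply Nat.mul_le_mul_right
        apply Nat.pow_le_pow_right hb
        omega

end counting

end Pool.Agent.TH910.LR
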